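import Pool.Agent.R215.LP.Weak

set_option autoImplicit false
open MeasureTheory Filter Topology Set Metric
open scoped ENNReal NNReal

/-! The averages at the origin blow up along a sequence of radii. -/

namespace Pool.Agent.R215.LP

theorem volr_ball (x : E) {r : ℝ} (hr : 0 < r) :
    volume.real (ball x r) = r ^ 6 * volume.real (ball (0 : E) 1) := by
  unfold Measure.real
  rw [vol_ball x hr, ENNReal.toReal_mul, ENNReal.toReal_ofReal (by positivity)]

theorem volr_one : 0 < volume.real (ball (0 : E) 1) :=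
  ENNReal.toReal_pos (measure_ball_pos volume _ one_pos).ne' measure_ball_lt_top.ne

theorem W_ge (j : ℕ) (X : E) : -192 ≤ W j X := by
  have h1 := Bp_abs_le (z j 5 X)
  have h6 := rho_pow_le j
  have hr : 0 ≤ rho j ^ 6 := by have := rho_pos j; positivity
  have h2 := Sp_nonneg (del_pos j) (PP_nonneg j X)
  rw [abs_le] at h1
  unfold W
  have : rho j ^ 6 * (-192) ≤ rho j ^ 6 * (Bp (z j 5 X) + Sp (del j) (PP j X)) :=
    mul_le_mul_of_nonneg_left (by linarith) hr
  linarith

theorem u_ge {X : E} (h : ‖X‖ ≤ 1) : -193 ≤ u X := by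
  have h0 := u0_le X
  have h1 : ‖X‖ ^ 6 ≤ 1 := pow_le_one₀ (norm_nonneg _) h
  have h2 := neg_abs_le (u0 X)
  unfold u
  rcases act X with h | ⟨k, _, h⟩
  · rw [tsum_none h (fun j hj => W_off hj)]
    linarith
  · rw [tsum_one h (fun j hj => W_off hj)]
    have := W_ge k X
    linarith

/-- the radius of the core of the `j`-th block -/
noncomputable def core (j : ℕ) : ℝ := rho j * (1 / 2) ^ (7 * (j + 1))

theorem core_pos (j : ℕ) : 0 < core j := by
  have := rho_pos j
  unfold core; positivity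

theorem core_le (j : ℕ) : core j ≤ rho j := by
  have := rho_pos j
  unfold core
  have h1 : ((1 : ℝ) / 2) ^ (7 * (j + 1)) ≤ 1 := pow_le_one₀ (by norm_num) (by norm_num)
  nlinarith

theorem PP_core {j : ℕ} {X : E} (h : X ∈ ball (Y j) (core j)) : PP j X ≤ del j := by
  rw [mem_ball, dist_eq_norm] at h
  have hr := rho_pos j
  have h1 := norm_sub_Y j X
  have h2 : ∑ i, z j i X ^ 2 ≤ ((1 / 2) ^ (7 * (j + 1))) ^ 2 := by
    have h3 : ‖X - Y j‖ ^ 2 ≤ core j ^ 2 := pow_le_pow_left₀ (norm_nonneg _) h.le 2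
    rw [h1] at h3
    unfold core at h3
    rw [mul_pow] at h3
    exact le_of_mul_le_mul_left h3 (by positivity)
  have h3 : PP j X ≤ (∑ i, z j i X ^ 2) ^ 3 := by
    unfold PP
    have h4 : ∀ i, z j i X ^ 2 ≤ ∑ i, z j i X ^ 2 := fun i =>
      Finset.single_le_sum (f := fun i => z j i X ^ 2) (fun i _ => sq_nonneg _)
        (Finset.mem_univ i)
    set S := ∑ i, z j i X ^ 2 with hS
    have hS0 : 0 ≤ S := Finset.sum_nonneg fun i _ => sq_nonneg _
    calc ∑ i, z j i X ^ 6 ≤ ∑ i, z j i X ^ 2 * S ^ 2 := by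
          refine Finset.sum_le_sum fun i _ => ?_
          have : z j i X ^ 6 = z j i X ^ 2 * (z j i X ^ 2) ^ 2 := by ring
          rw [this]
          exact mul_le_mul_of_nonneg_left (pow_le_pow_left₀ (sq_nonneg _) (h4 i) 2) (sq_nonneg _)
      _ = S ^ 3 := by rw [← Finset.sum_mul]; ring
  have h4 : (∑ i, z j i X ^ 2) ^ 3 ≤ (((1 / 2) ^ (7 * (j + 1))) ^ 2) ^ 3 :=
    pow_le_pow_left₀ (Finset.sum_nonneg fun i _ => sq_nonneg _) h2 3
  refine h3.trans (h4.trans (le_of_eq ?_))
  unfold del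
  rw [← pow_mul, ← pow_mul]
  congr 1
  ring

theorem norm_Y (j : ℕ) : ‖Y j‖ = 8 * rho j := by
  have := rho_pos j
  unfold Y
  rw [EuclideanSpace.norm_single, Real.norm_eq_abs, abs_of_pos (by positivity)]

theorem core_sub {j : ℕ} : ball (Y j) (core j) ⊆ ball 0 (20 * rho j) := by
  intro X hX
  rw [mem_ball, dist_eq_norm] at hX
  rw [mem_ball_zero_iff]
  have h1 := norm_Y j
  have h2 := core_le j
  have h3 := rho_pos j
  have h4 : ‖X‖ ≤ ‖X - Y j‖ + ‖Y j‖ := by
    simpa using norm_add_le (X - Y j) (Y j)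
  linarith

theorem core_mem_slab {j : ℕ} {X : E} (h : X ∈ ball (Y j) (core j)) : X ∈ slab j := by
  refine ball_sub_slab (ball_subset_ball ?_ h)
  have := core_le j
  have := rho_pos j
  linarith

theorem u_core {j : ℕ} {X : E} (h : X ∈ ball (Y j) (core j)) (h1 : ‖X‖ ≤ 1) :
    2 ^ (48 * (j + 1)) / (6 * 48 ^ 5) - 193 ≤ u X := by
  have hs := core_mem_slab h
  have h0 := u0_le X
  have h2 : ‖X‖ ^ 6 ≤ 1 := pow_le_one₀ (norm_nonneg _) h1
  have h3 := neg_abs_le (u0 X)
  have h4 : u X = u0 X + W j X := by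
    unfold u
    rw [tsum_one (fun k hk => slab_disj hk.symm hs) (fun j hj => W_off hj)]
  rw [h4]
  have h5 := Bp_abs_le (z j 5 X)
  have h6 := rho_pow_le j
  have hr : 0 ≤ rho j ^ 6 := by have := rho_pos j; positivity
  have h7 := Sp_ge (del_pos j) (del_le j) (PP_nonneg j X) (PP_core h)
  rw [abs_le] at h5
  have h8 : rho j ^ 6 * ((del j)⁻¹ ^ 4 / (6 * 48 ^ 5) - 192) ≤ W j X := by
    unfold W
    exact mul_le_mul_of_nonneg_left (by linarith) hr
  have h9 : rho j ^ 6 * (del j)⁻¹ ^ 4 = 2 ^ (48 * (j + 1)) := by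
    rw [rho_eq, del_inv, inv_pow, ← pow_mul, ← pow_mul, inv_mul_eq_div,
      div_eq_iff (by positivity), ← pow_add]
    congr 1
    ring
  have h10 : rho j ^ 6 * ((del j)⁻¹ ^ 4 / (6 * 48 ^ 5) - 192) =
      rho j ^ 6 * (del j)⁻¹ ^ 4 / (6 * 48 ^ 5) - 192 * rho j ^ 6 := by ring
  rw [h10, h9] at h8
  linarith

theorem avg_ge (j : ℕ) : 2 ^ (6 * (j + 1)) / (6 * 48 ^ 5 * 20 ^ 6) - 193 ≤
    ⨍ X in ball (0 : E) (20 * rho j), u X := by
  have hr := rho_pos j
  have hR : 20 * rho j ≤ 1 := by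
    have := rho_le j
    have h2 : (20 : ℝ) * (1 / 2) ^ 20 ≤ 1 := by norm_num
    linarith
  have hv : 0 < volume.real (ball (0 : E) (20 * rho j)) := by
    rw [volr_ball _ (by positivity)]
    have := volr_one
    positivity
  have hfin := fin_ball (20 * rho j)
  have hi : IntegrableOn u (ball (0 : E) (20 * rho j)) := (memLp_u (20 * rho j)).integrable one_le_p
  set K : ℝ := 2 ^ (48 * (j + 1)) / (6 * 48 ^ 5) with hK
  have hK0 : 0 ≤ K := by positivity
  have h1 : ∫ X in ball (0 : E) (20 * rho j), (-193 + (ball (Y j) (core j)).indicator (fun _ => K) X)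
      ≤ ∫ X in ball (0 : E) (20 * rho j), u X := by
    refine setIntegral_mono_on ?_ hi measurableSet_ball fun X hX => ?_
    · refine (integrableOn_const (C := (-193 : ℝ)) measure_ball_lt_top.ne).add ?_
      exact (integrableOn_const (C := K) measure_ball_lt_top.ne).indicator measurableSet_ball
    · rw [mem_ball_zero_iff] at hX
      by_cases h : X ∈ ball (Y j) (core j)
      · rw [indicator_of_mem h]
        have := u_core h (hX.le.trans hR)
        linarith
      · rw [indicator_of_notMem h, add_zero]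
        exact u_ge (hX.le.trans hR)
  have h2 : ∫ X in ball (0 : E) (20 * rho j), (-193 + (ball (Y j) (core j)).indicator (fun _ => K) X)
      = -193 * volume.real (ball (0 : E) (20 * rho j)) + K * volume.real (ball (Y j) (core j)) := by
    rw [integral_add (integrableOn_const (C := (-193 : ℝ)) measure_ball_lt_top.ne)
      ((integrableOn_const (C := K) measure_ball_lt_top.ne).indicator measurableSet_ball),
      setIntegral_const, setIntegral_indicator measurableSet_ball,
      inter_eq_self_of_subset_right core_sub, setIntegral_const, smul_eq_mul, smul_eq_mul]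
    ring
  rw [setAverage_eq, smul_eq_mul, inv_mul_eq_div, le_div_iff₀ hv]
  refine le_trans (le_of_eq ?_) (h2 ▸ h1)
  rw [volr_ball _ (by positivity), volr_ball _ (core_pos j), hK]
  have h3 : (2 : ℝ) ^ (48 * (j + 1)) * core j ^ 6 = 2 ^ (6 * (j + 1)) * rho j ^ 6 := by
    unfold core
    rw [mul_pow, ← pow_mul, show 48 * (j + 1) = 6 * (j + 1) + 7 * (j + 1) * 6 by ring, pow_add]
    have : (2 : ℝ) ^ (7 * (j + 1) * 6) * (1 / 2) ^ (7 * (j + 1) * 6) = 1 := by
      rw [← mul_pow]; norm_num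
    calc (2 : ℝ) ^ (6 * (j + 1)) * 2 ^ (7 * (j + 1) * 6) *
          (rho j ^ 6 * (1 / 2) ^ (7 * (j + 1) * 6))
        = 2 ^ (6 * (j + 1)) * rho j ^ 6 *
          (2 ^ (7 * (j + 1) * 6) * (1 / 2) ^ (7 * (j + 1) * 6)) := by ring
      _ = _ := by rw [this, mul_one]
  have h4 : (2 : ℝ) ^ (48 * (j + 1)) / (6 * 48 ^ 5) * (core j ^ 6 * volume.real (ball (0:E) 1)) =
      (2 ^ (48 * (j + 1)) * core j ^ 6) / (6 * 48 ^ 5) * volume.real (ball (0:E) 1) := by ring
  rw [h4, h3]
  field_simp
  ring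

theorem tendsto_rho : Tendsto (fun j => 20 * rho j) atTop (𝓝[>] 0) := by
  rw [tendsto_nhdsWithin_iff]
  constructor
  · have h1 : Tendsto (fun j : ℕ => (((1 : ℝ) / 2) ^ 20) ^ (j + 1)) atTop (𝓝 0) :=
      (tendsto_pow_atTop_nhds_zero_of_lt_one (by norm_num) (by norm_num)).comp
        (tendsto_add_atTop_nat 1)
    have h2 := h1.const_mul 20
    rw [mul_zero] at h2
    refine h2.congr fun j => ?_
    unfold rho
    rw [← pow_mul]
  · exact Eventually.of_forall fun j => by
      have := rho_pos j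
      show 0 < 20 * rho j
      positivity

theorem avg_tendsto : Tendsto (fun j => ⨍ X in ball (0 : E) (20 * rho j), u X) atTop atTop := by
  refine tendsto_atTop_mono avg_ge ?_
  refine tendsto_atTop_add_const_right _ (-193) (Tendsto.atTop_div_const (by positivity) ?_)
  have h1 : Tendsto (fun j : ℕ => ((2 : ℝ) ^ 6) ^ (j + 1)) atTop atTop :=
    (tendsto_pow_atTop_atTop_of_one_lt (by norm_num)).comp (tendsto_add_atTop_nat 1)
  refine h1.congr fun j => ?_
  rw [← pow_mul]

/-- `u ≤ 0` on the half space `X 5 < 0` -/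
theorem u_nonpos {X : E} (h : X 5 < 0) : u X ≤ 0 := by
  have h1 : ∀ j, X ∉ slab j := by
    intro j hj
    rw [mem_slab_iff] at hj
    have := rho_pos j
    linarith [hj.1]
  unfold u
  rw [tsum_none h1 (fun j hj => W_off hj), add_zero]
  unfold u0
  have : 0 ≤ ∑ i, G0 i X ^ 6 := Finset.sum_nonneg fun i _ => pow_six_nonneg _
  linarith

theorem essInf_le {r : ℝ} (hr : 0 < r) :
    essInf (fun X => (u X : EReal)) (volume.restrict (ball (0 : E) r)) ≤ 0 := by
  by_contra hc
  push Not at hc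
  have h1 := ae_lt_of_lt_essInf hc
  have h2 : ∀ᵐ X ∂(volume : Measure E), X ∈ ball (0 : E) r → 0 < u X := by
    rw [ae_restrict_iff' measurableSet_ball] at h1
    filter_upwards [h1] with X hX h
    exact_mod_cast hX h
  have h3 : volume (ball (0 : E) r ∩ {X : E | X 5 < 0}) = 0 := by
    rw [ae_iff] at h2
    refine measure_mono_null ?_ h2
    rintro X ⟨hX1, hX2⟩ hh
    exact absurd (hh hX1) (not_lt.2 (u_nonpos hX2))
  have h4 : IsOpen (ball (0 : E) r ∩ {X : E | X 5 < 0}) :=
    isOpen_ball.inter (isOpen_lt (EuclideanSpace.proj (𝕜 := ℝ) (5 : Fin 6)).continuous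
      continuous_const)
  have h5 : (ball (0 : E) r ∩ {X : E | X 5 < 0}).Nonempty := by
    refine ⟨EuclideanSpace.single 5 (-(r / 2)), ?_, ?_⟩
    · rw [mem_ball_zero_iff, EuclideanSpace.norm_single, norm_neg, Real.norm_eq_abs,
        abs_of_pos (by positivity)]
      linarith
    · show (EuclideanSpace.single (5 : Fin 6) (-(r / 2)) : E) 5 < 0
      simp [hr]
  exact (h4.measure_pos volume h5).ne' h3

end Pool.Agent.R215.LP
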