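import Pool.Agent.R215.LP.One

set_option autoImplicit false
open MeasureTheory Filter Topology Set Metric

/-! The blocks of the counterexample of MP_8e48cc_an. -/

namespace Pool.Agent.R215.LP

abbrev E : Type := EuclideanSpace ℝ (Fin 6)

/-- the linear form with coordinates `c` -/
noncomputable def lin (c : Fin 6 → ℝ) : E →L[ℝ] ℝ := ∑ i, c i • EuclideanSpace.proj i

/-- the basis vectors -/
noncomputable def e (i : Fin 6) : E := EuclideanSpace.single i 1

theorem lin_apply (c : Fin 6 → ℝ) (v : E) : lin c v = ∑ i, c i * v i := by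
  unfold lin
  simp

theorem lin_e (c : Fin 6 → ℝ) (k : Fin 6) : lin c (e k) = c k := by
  rw [lin_apply, Finset.sum_eq_single k]
  · simp [e]
  · intro b _ hb
    simp [e, hb]
  · intro h
    exact absurd (Finset.mem_univ _) h

theorem smul_lin (a : ℝ) (c : Fin 6 → ℝ) : a • lin c = lin fun i => a * c i := by
  unfold lin
  rw [Finset.smul_sum]
  refine Finset.sum_congr rfl fun i _ => ?_
  rw [smul_smul]

theorem add_lin (c d : Fin 6 → ℝ) : lin c + lin d = lin fun i => c i + d i := by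
  unfold lin
  rw [← Finset.sum_add_distrib]
  refine Finset.sum_congr rfl fun i _ => ?_
  rw [add_smul]

theorem proj_eq_lin (k : Fin 6) : (EuclideanSpace.proj k : E →L[ℝ] ℝ) =
    lin fun i => if i = k then 1 else 0 := by
  ext v
  rw [lin_apply]
  simp

noncomputable def rho (j : ℕ) : ℝ := (1 / 2) ^ (20 * (j + 1))
noncomputable def del (j : ℕ) : ℝ := (1 / 2) ^ (42 * (j + 1))

theorem rho_pos (j : ℕ) : 0 < rho j := by unfold rho; positivity
theorem del_pos (j : ℕ) : 0 < del j := by unfold del; positivity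
theorem rho_le (j : ℕ) : rho j ≤ (1 / 2) ^ 20 := by
  unfold rho
  exact pow_le_pow_of_le_one (by norm_num) (by norm_num) (by omega)
theorem del_le (j : ℕ) : del j ≤ 1 / 4 := by
  unfold del
  calc ((1 : ℝ) / 2) ^ (42 * (j + 1)) ≤ (1 / 2) ^ 2 :=
        pow_le_pow_of_le_one (by norm_num) (by norm_num) (by omega)
    _ = 1 / 4 := by norm_num
theorem rho_lt {j k : ℕ} (h : j < k) : rho k ≤ (1 / 2) ^ 20 * rho j := by
  unfold rho
  rw [← pow_add]
  exact pow_le_pow_of_le_one (by norm_num) (by norm_num) (by omega)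

/-- block coordinates -/
noncomputable def z (j : ℕ) (i : Fin 6) (X : E) : ℝ :=
  (rho j)⁻¹ * (X i - (if i = 5 then 8 * rho j else 0))

noncomputable def PP (j : ℕ) (X : E) : ℝ := ∑ i, z j i X ^ 6

noncomputable def W (j : ℕ) (X : E) : ℝ :=
  rho j ^ 6 * (Bp (z j 5 X) + Sp (del j) (PP j X))

noncomputable def g (j : ℕ) (i : Fin 6) (X : E) : ℝ :=
  rho j * ((Lm (del j) (PP j X) - 1) * z j i X + (if i = 5 then tau (z j 5 X) else 0))

noncomputable def G0 (i : Fin 6) (X : E) : ℝ := if i = 5 then 0 else X i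

noncomputable def u0 (X : E) : ℝ := -(1 / 6 * ∑ i, G0 i X ^ 6)

theorem PP_nonneg (j : ℕ) (X : E) : 0 ≤ PP j X := by
  unfold PP
  refine Finset.sum_nonneg fun i _ => ?_
  have : z j i X ^ 6 = (z j i X ^ 3) ^ 2 := by ring
  rw [this]; positivity

theorem z_pow_le (j : ℕ) (i : Fin 6) (X : E) : z j i X ^ 6 ≤ PP j X := by
  unfold PP
  refine Finset.single_le_sum (f := fun i => z j i X ^ 6) (fun i _ => ?_) (Finset.mem_univ i)
  have : z j i X ^ 6 = (z j i X ^ 3) ^ 2 := by ring
  show 0 ≤ z j i X ^ 6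
  rw [this]; positivity

theorem hasFDerivAt_z (j : ℕ) (i : Fin 6) (X : E) :
    HasFDerivAt (z j i) (lin fun k => if k = i then (rho j)⁻¹ else 0) X := by
  have h1 : HasFDerivAt (fun X : E => X i) (EuclideanSpace.proj i : E →L[ℝ] ℝ) X :=
    (EuclideanSpace.proj i : E →L[ℝ] ℝ).hasFDerivAt
  have h2 := (h1.sub_const (if i = 5 then 8 * rho j else 0)).const_mul (rho j)⁻¹
  refine h2.congr_fderiv ?_
  rw [proj_eq_lin, smul_lin]
  congr 1
  funext k
  split_ifs <;> simp

theorem hasFDerivAt_G0 (i : Fin 6) (X : E) :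
    HasFDerivAt (G0 i) (lin fun k => if k = i ∧ i ≠ 5 then 1 else 0) X := by
  unfold G0
  by_cases h : i = 5
  · simp only [h, if_true]
    have : (lin fun k => if k = (5 : Fin 6) ∧ (5 : Fin 6) ≠ 5 then (1:ℝ) else 0) = 0 := by
      ext v
      rw [lin_apply]
      simp
    rw [this]
    exact hasFDerivAt_const _ _
  · simp only [h, if_false]
    have h1 : HasFDerivAt (fun X : E => X i) (EuclideanSpace.proj i : E →L[ℝ] ℝ) X :=
      (EuclideanSpace.proj i : E →L[ℝ] ℝ).hasFDerivAt
    refine h1.congr_fderiv ?_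
    rw [proj_eq_lin]
    congr 1
    funext k
    simp [h]

theorem hasFDerivAt_PP (j : ℕ) (X : E) :
    HasFDerivAt (PP j) (lin fun k => 6 * z j k X ^ 5 * (rho j)⁻¹) X := by
  unfold PP
  have h1 : ∀ i ∈ (Finset.univ : Finset (Fin 6)), HasFDerivAt (fun X : E => z j i X ^ 6)
      (lin fun k => if k = i then 6 * z j i X ^ 5 * (rho j)⁻¹ else 0) X := by
    intro i _
    have h := (hasFDerivAt_z j i X).pow 6
    refine h.congr_fderiv ?_
    rw [smul_lin]
    congr 1
    funext k
    split_ifs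
    · norm_num
    · simp
  have h2 := HasFDerivAt.fun_sum h1
  refine h2.congr_fderiv ?_
  ext v
  rw [_root_.sum_apply, lin_apply]
  refine Finset.sum_congr rfl fun i _ => ?_
  rw [lin_apply, Finset.sum_eq_single i]
  · simp
  · intro b _ hb
    simp [hb]
  · intro h
    exact absurd (Finset.mem_univ _) h

theorem hasFDerivAt_W (j : ℕ) (X : E) :
    HasFDerivAt (W j) (lin fun k => -(rho j ^ 5 * ((if k = 5 then tau (z j 5 X) ^ 5 else 0) +
      (Lm (del j) (PP j X) ^ 5 - 1) * z j k X ^ 5))) X := by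
  have h1 := (hasDerivAt_Bp (z j 5 X)).comp_hasFDerivAt X (hasFDerivAt_z j 5 X)
  have h2 := (hasDerivAt_Sp (del_pos j) (PP_nonneg j X)).comp_hasFDerivAt X (hasFDerivAt_PP j X)
  have h3 := (h1.add h2).const_mul (rho j ^ 6)
  refine h3.congr_fderiv ?_
  rw [smul_lin, smul_lin, add_lin, smul_lin]
  congr 1
  funext k
  have hr : rho j ≠ 0 := (rho_pos j).ne'
  split_ifs with h
  · field_simp
    ring
  · field_simp
    ring

theorem hasFDerivAt_g (j : ℕ) (i : Fin 6) (X : E) :
    HasFDerivAt (g j i) (lin fun k => (if k = i then Lm (del j) (PP j X) - 1 else 0) +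
      6 * z j k X ^ 5 * z j i X * Lm' (del j) (PP j X) +
      (if k = 5 ∧ i = 5 then tau' (z j 5 X) else 0)) X := by
  have hr : rho j ≠ 0 := (rho_pos j).ne'
  have hp : 0 < PP j X + del j := add_pos_of_nonneg_of_pos (PP_nonneg j X) (del_pos j)
  have h1 := ((hasDerivAt_Lm hp).comp_hasFDerivAt X (hasFDerivAt_PP j X)).sub_const 1
  have h2 := h1.mul (hasFDerivAt_z j i X)
  have h3 : HasFDerivAt (fun X : E => if i = 5 then tau (z j 5 X) else 0)
      (lin fun k => if k = 5 ∧ i = 5 then tau' (z j 5 X) * (rho j)⁻¹ else 0) X := by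
    by_cases h : i = 5
    · simp only [h, if_true, and_true]
      have h4 := (hasDerivAt_tau (z j 5 X)).comp_hasFDerivAt X (hasFDerivAt_z j 5 X)
      refine h4.congr_fderiv ?_
      rw [smul_lin]
      congr 1
      funext k
      split_ifs <;> simp
    · simp only [h, if_false, and_false]
      have : (lin fun _ => (0:ℝ)) = 0 := by
        ext v
        rw [lin_apply]
        simp
      rw [this]
      exact hasFDerivAt_const _ _
  have h4 := (h2.add h3).const_mul (rho j)
  refine h4.congr_fderiv ?_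
  simp only [smul_lin, add_lin]
  congr 1
  funext k
  by_cases hk : k = i
  · subst hk
    by_cases hi : k = 5
    · simp only [hi, if_true, and_true, Function.comp]
      field_simp
    · simp only [hi, if_true, if_false, and_self, Function.comp]
      field_simp
      ring
  · have h5 : ¬ (k = 5 ∧ i = 5) := fun h => hk (h.1.trans h.2.symm)
    rw [if_neg hk, if_neg hk, if_neg h5, if_neg h5]
    field_simp
    ring

theorem z_ne {i : Fin 6} (h : i ≠ 5) (j : ℕ) (X : E) : rho j * z j i X = X i := by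
  unfold z
  rw [if_neg h, sub_zero, ← mul_assoc, mul_inv_cancel₀ (rho_pos j).ne', one_mul]

theorem abs_z_lt {j : ℕ} {X : E} (h : PP j X < 1) (i : Fin 6) : |z j i X| < 1 := by
  by_contra hc
  push Not at hc
  have h1 : 1 ≤ |z j i X| ^ 6 := one_le_pow₀ hc
  have h2 : |z j i X| ^ 6 = z j i X ^ 6 := by
    rw [show (6 : ℕ) = 2 * 3 from rfl, pow_mul, sq_abs, ← pow_mul]
  have := z_pow_le j i X
  linarith

/-- the key identity: the gradient of `W j` is the increment of the fifth powers -/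
theorem fderiv_W (j : ℕ) (X : E) (i : Fin 6) :
    fderiv ℝ (W j) X (e i) = -((G0 i X + g j i X) ^ 5 - G0 i X ^ 5) := by
  rw [(hasFDerivAt_W j X).fderiv, lin_e]
  rw [neg_inj]
  unfold G0 g
  by_cases hi : i = 5
  · simp only [hi, if_true]
    rcases le_or_gt 1 (PP j X) with h | h
    · rw [Lm_of_ge h]; ring
    · have h5 := abs_z_lt h 5
      rw [tau_of_abs_le h5.le]
      ring
  · simp only [hi, if_false]
    have hz := z_ne hi j X
    rw [← hz]
    ring

theorem differentiable_W (j : ℕ) : Differentiable ℝ (W j) := fun X =>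
  (hasFDerivAt_W j X).differentiableAt

theorem differentiable_g (j : ℕ) (i : Fin 6) : Differentiable ℝ (g j i) := fun X =>
  (hasFDerivAt_g j i X).differentiableAt

theorem differentiable_G0 (i : Fin 6) : Differentiable ℝ (G0 i) := fun X =>
  (hasFDerivAt_G0 i X).differentiableAt

theorem hasFDerivAt_u0 (X : E) :
    HasFDerivAt u0 (lin fun k => -(G0 k X ^ 5)) X := by
  unfold u0
  have h1 : ∀ i ∈ (Finset.univ : Finset (Fin 6)), HasFDerivAt (fun X : E => G0 i X ^ 6)
      (lin fun k => if k = i then 6 * G0 i X ^ 5 else 0) X := by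
    intro i _
    have h := (hasFDerivAt_G0 i X).pow 6
    refine h.congr_fderiv ?_
    rw [smul_lin]
    congr 1
    funext k
    by_cases hk : k = i
    · by_cases hi : i = 5
      · simp [hk, hi, G0]
      · simp [hk, hi]
    · simp [hk]
  have h2 := ((HasFDerivAt.fun_sum h1).const_mul (1 / 6)).neg
  refine h2.congr_fderiv ?_
  ext v
  rw [_root_.neg_apply, _root_.smul_apply, _root_.sum_apply, lin_apply, smul_eq_mul, Finset.mul_sum,
    ← Finset.sum_neg_distrib]
  refine Finset.sum_congr rfl fun i _ => ?_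
  rw [lin_apply, Finset.sum_eq_single i]
  · simp only [if_true]
    ring
  · intro b _ hb
    simp [hb]
  · intro h
    exact absurd (Finset.mem_univ _) h

theorem fderiv_u0 (X : E) (i : Fin 6) : fderiv ℝ u0 X (e i) = -(G0 i X ^ 5) := by
  rw [(hasFDerivAt_u0 X).fderiv, lin_e]

theorem differentiable_u0 : Differentiable ℝ u0 := fun X => (hasFDerivAt_u0 X).differentiableAt

theorem fderiv_G0 (X : E) (i : Fin 6) : fderiv ℝ (G0 i) X (e i) = if i = 5 then 0 else 1 := by
  rw [(hasFDerivAt_G0 i X).fderiv, lin_e]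
  by_cases hi : i = 5 <;> simp [hi]

theorem fderiv_g (j : ℕ) (X : E) (i : Fin 6) : fderiv ℝ (g j i) X (e i) =
    (Lm (del j) (PP j X) - 1) + 6 * z j i X ^ 6 * Lm' (del j) (PP j X) +
      (if i = 5 then tau' (z j 5 X) else 0) := by
  rw [(hasFDerivAt_g j i X).fderiv, lin_e]
  by_cases hi : i = 5
  · simp only [hi, if_true, and_self]; ring
  · simp only [hi, if_true, if_false, and_self]; ring

theorem sum_fderiv_G0 (X : E) : ∑ i, fderiv ℝ (G0 i) X (e i) = 5 := by
  simp only [fderiv_G0]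
  simp [Fin.sum_univ_six]
  norm_num

theorem sum_fderiv_g (j : ℕ) (X : E) : ∑ i, fderiv ℝ (g j i) X (e i) =
    6 * ((Lm (del j) (PP j X) - 1) + PP j X * Lm' (del j) (PP j X)) + tau' (z j 5 X) := by
  simp only [fderiv_g]
  rw [Finset.sum_add_distrib, Finset.sum_add_distrib, ← Finset.sum_mul, ← Finset.mul_sum]
  simp only [Finset.sum_const, Finset.card_univ, Fintype.card_fin, nsmul_eq_mul,
    Finset.sum_ite_eq', Finset.mem_univ, if_true]
  unfold PP
  push_cast
  ring

theorem sum_fderiv_g_ge (j : ℕ) (X : E) : -(9 / 2) ≤ ∑ i, fderiv ℝ (g j i) X (e i) := by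
  rw [sum_fderiv_g]
  have h1 := div_key (del_pos j) (PP_nonneg j X)
  have h2 := tau'_ge (z j 5 X)
  linarith

/-- the slab carrying the `j`-th block -/
def slab (j : ℕ) : Set E := {X | |z j 5 X| < 3}

theorem PP_ge {j : ℕ} {X : E} (h : X ∉ slab j) : 1 ≤ PP j X := by
  have h1 : 3 ≤ |z j 5 X| := not_lt.1 h
  by_contra hc
  push Not at hc
  have := abs_z_lt hc 5
  linarith

theorem W_off {j : ℕ} {X : E} (h : X ∉ slab j) : W j X = 0 := by
  have h1 : 3 ≤ |z j 5 X| := not_lt.1 h
  unfold W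
  rw [Bp_of_abs_ge h1, Sp_of_ge (PP_ge h)]
  ring

theorem g_off {j : ℕ} {X : E} (h : X ∉ slab j) (i : Fin 6) : g j i X = 0 := by
  have h1 : 3 ≤ |z j 5 X| := not_lt.1 h
  unfold g
  rw [Lm_of_ge (PP_ge h), tau_of_abs_ge h1]
  simp

theorem sum_fderiv_g_off {j : ℕ} {X : E} (h : X ∉ slab j) :
    ∑ i, fderiv ℝ (g j i) X (e i) = 0 := by
  have h1 : 3 ≤ |z j 5 X| := not_lt.1 h
  rw [sum_fderiv_g, Lm_of_ge (PP_ge h), Lm'_of_ge (PP_ge h), tau'_of_abs_ge h1]
  ring

theorem mem_slab_iff {j : ℕ} {X : E} : X ∈ slab j ↔ 5 * rho j < X 5 ∧ X 5 < 11 * rho j := by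
  have hr := rho_pos j
  unfold slab z
  rw [mem_ofPred_eq, abs_lt, if_pos rfl]
  have e1 : (rho j)⁻¹ * (X 5 - 8 * rho j) = X 5 / rho j - 8 := by
    field_simp
  rw [e1]
  constructor
  · rintro ⟨h1, h2⟩
    have h3 : 5 < X 5 / rho j := by linarith
    have h4 : X 5 / rho j < 11 := by linarith
    rw [lt_div_iff₀ hr] at h3
    rw [div_lt_iff₀ hr] at h4
    exact ⟨h3, h4⟩
  · rintro ⟨h1, h2⟩
    rw [← lt_div_iff₀ hr] at h1
    rw [← div_lt_iff₀ hr] at h2
    constructor <;> linarith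

theorem slab_lt {j k : ℕ} (h : j < k) {X : E} (hj : X ∈ slab j) : X ∉ slab k := by
  rw [mem_slab_iff] at hj ⊢
  intro hk
  have h1 := rho_lt h
  have h2 := rho_pos j
  have : (11 : ℝ) * ((1 / 2) ^ 20 * rho j) ≤ 5 * rho j := by nlinarith
  linarith [hj.1, hk.2]

theorem slab_disj {j k : ℕ} (h : j ≠ k) {X : E} (hj : X ∈ slab j) : X ∉ slab k := by
  rcases lt_or_gt_of_ne h with h1 | h1
  · exact slab_lt h1 hj
  · exact fun hk => slab_lt h1 hk hj

/-- beyond some index no slab contains `X` -/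
theorem slab_ev (X : E) : ∃ N, ∀ j, N ≤ j → X ∉ slab j := by
  by_contra hc
  push Not at hc
  obtain ⟨j, _, hj⟩ := hc 0
  obtain ⟨k, hk, hk'⟩ := hc (j + 1)
  exact slab_lt (by omega) hj hk'

end Pool.Agent.R215.LP
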