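import Pool.Agent.R215.LP.Sum

set_option autoImplicit false
open MeasureTheory Filter Topology Set Metric
open scoped ENNReal NNReal

/-! Integrability. -/

namespace Pool.Agent.R215.LP

/-- the centre of the `j`-th block -/
noncomputable def Y (j : ℕ) : E := EuclideanSpace.single 5 (8 * rho j)

theorem Y_apply (j : ℕ) (i : Fin 6) : Y j i = if i = 5 then 8 * rho j else 0 := by
  unfold Y
  simp

theorem sub_Y (j : ℕ) (X : E) (i : Fin 6) : (X - Y j) i = rho j * z j i X := by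
  have hr := (rho_pos j).ne'
  unfold z
  rw [PiLp.sub_apply, Y_apply, ← mul_assoc, mul_inv_cancel₀ hr, one_mul]

theorem norm_sub_Y (j : ℕ) (X : E) : ‖X - Y j‖ ^ 2 = rho j ^ 2 * ∑ i, z j i X ^ 2 := by
  rw [EuclideanSpace.norm_sq_eq, Finset.mul_sum]
  refine Finset.sum_congr rfl fun i _ => ?_
  rw [sub_Y, Real.norm_eq_abs, sq_abs]
  ring

theorem mem_ball_of_PP {j : ℕ} {X : E} (h : PP j X < 1) : X ∈ ball (Y j) (3 * rho j) := by
  rw [mem_ball, dist_eq_norm]
  have hr := rho_pos j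
  have h1 : ∑ i, z j i X ^ 2 ≤ ∑ _i : Fin 6, (1 : ℝ) := by
    refine Finset.sum_le_sum fun i _ => ?_
    have := abs_z_lt h i
    rw [← sq_abs]
    exact pow_le_one₀ (abs_nonneg _) this.le
  simp only [Finset.sum_const, Finset.card_univ, Fintype.card_fin, nsmul_eq_mul, mul_one] at h1
  have h2 := norm_sub_Y j X
  have h3 : ‖X - Y j‖ ^ 2 < (3 * rho j) ^ 2 := by
    rw [h2]
    push_cast at h1
    have : rho j ^ 2 * ∑ i, z j i X ^ 2 ≤ rho j ^ 2 * 6 :=
      mul_le_mul_of_nonneg_left h1 (by positivity)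
    have h4 : 0 < rho j ^ 2 := by positivity
    nlinarith
  exact lt_of_pow_lt_pow_left₀ 2 (by positivity) h3

theorem abs_z_le_norm (j : ℕ) (X : E) (i : Fin 6) : rho j * |z j i X| ≤ ‖X - Y j‖ := by
  have h1 := EuclideanSpace.norm_eq (X - Y j)
  have h2 : |(X - Y j) i| ≤ ‖X - Y j‖ := by
    rw [← Real.norm_eq_abs]
    exact PiLp.norm_apply_le (X - Y j) i
  rw [sub_Y, abs_mul, abs_of_pos (rho_pos j)] at h2
  exact h2

theorem ball_sub_slab {j : ℕ} {X : E} (h : X ∈ ball (Y j) (3 * rho j)) : X ∈ slab j := by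
  rw [mem_ball, dist_eq_norm] at h
  have h1 := abs_z_le_norm j X 5
  have hr := rho_pos j
  show |z j 5 X| < 3
  by_contra hc
  push Not at hc
  nlinarith

noncomputable def c (j : ℕ) : ℝ := rho j ^ 6 * (del j)⁻¹ ^ 5

theorem rho_eq (j : ℕ) : rho j = (2 ^ (20 * (j + 1)))⁻¹ := by
  unfold rho
  rw [one_div, inv_pow]

theorem del_inv (j : ℕ) : (del j)⁻¹ = 2 ^ (42 * (j + 1)) := by
  unfold del
  rw [one_div, inv_pow, inv_inv]

theorem c_eq (j : ℕ) : c j = 2 ^ (90 * (j + 1)) := by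
  unfold c
  rw [rho_eq, del_inv, inv_pow, ← pow_mul, ← pow_mul, inv_mul_eq_div,
    div_eq_iff (by positivity), ← pow_add]
  congr 1
  ring

theorem c_nonneg (j : ℕ) : 0 ≤ c j := by rw [c_eq]; positivity

noncomputable def T (j : ℕ) : E → ℝ := (ball (Y j) (3 * rho j)).indicator fun _ => c j

theorem T_nonneg (j : ℕ) (X : E) : 0 ≤ T j X :=
  indicator_nonneg (fun _ _ => c_nonneg j) X

theorem T_off {j : ℕ} {X : E} (h : X ∉ slab j) : T j X = 0 :=
  indicator_of_notMem (fun hh => h (ball_sub_slab hh)) _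

theorem T_of_mem {j : ℕ} {X : E} (h : X ∈ ball (Y j) (3 * rho j)) : T j X = c j :=
  indicator_of_mem h _

theorem rho_pow_le (j : ℕ) : rho j ^ 6 ≤ 1 := by
  refine pow_le_one₀ (rho_pos j).le ((rho_le j).trans ?_)
  norm_num

theorem del_inv_nonneg (j : ℕ) : 0 ≤ (del j)⁻¹ := (inv_pos.2 (del_pos j)).le

theorem W_le (j : ℕ) (X : E) : |W j X| ≤ 192 + T j X := by
  have h1 := Bp_abs_le (z j 5 X)
  have h6 := rho_pow_le j
  have hr : 0 ≤ rho j ^ 6 := by have := rho_pos j; positivity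
  have hT := T_nonneg j X
  unfold W
  rw [abs_mul, abs_of_nonneg hr]
  rcases lt_or_ge (PP j X) 1 with h | h
  · rw [T_of_mem (mem_ball_of_PP h)]
    have h2 := Sp_nonneg (del_pos j) (PP_nonneg j X)
    have h3 := Sp_le (del_pos j) ((del_le j).trans (by norm_num)) (PP_nonneg j X)
    calc rho j ^ 6 * |Bp (z j 5 X) + Sp (del j) (PP j X)|
        ≤ rho j ^ 6 * (192 + (del j)⁻¹ ^ 5) := by
          refine mul_le_mul_of_nonneg_left ((abs_add_le _ _).trans ?_) hr
          rw [abs_of_nonneg h2]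
          linarith
      _ = rho j ^ 6 * 192 + c j := by unfold c; ring
      _ ≤ 192 + c j := by linarith
  · rw [Sp_of_ge h, add_zero]
    have : rho j ^ 6 * |Bp (z j 5 X)| ≤ 1 * 192 := mul_le_mul h6 h1 (abs_nonneg _) zero_le_one
    linarith

theorem add_pow_six (a b : ℝ) : (a + b) ^ 6 ≤ 32 * (a ^ 6 + b ^ 6) := by
  have h1 : (a + b) ^ 2 ≤ 2 * (a ^ 2 + b ^ 2) := by nlinarith [sq_nonneg (a - b)]
  have h2 : ((a + b) ^ 2) ^ 3 ≤ (2 * (a ^ 2 + b ^ 2)) ^ 3 :=
    pow_le_pow_left₀ (sq_nonneg _) h1 3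
  have h3 : (a ^ 2 + b ^ 2) ^ 3 ≤ 4 * (a ^ 6 + b ^ 6) := by
    have ha := sq_nonneg a
    have hb := sq_nonneg b
    have : 4 * (a ^ 6 + b ^ 6) - (a ^ 2 + b ^ 2) ^ 3 = 3 * (a ^ 2 + b ^ 2) * (a ^ 2 - b ^ 2) ^ 2 := by
      ring
    have h4 : 0 ≤ 3 * (a ^ 2 + b ^ 2) * (a ^ 2 - b ^ 2) ^ 2 := by positivity
    linarith
  calc (a + b) ^ 6 = ((a + b) ^ 2) ^ 3 := by ring
    _ ≤ (2 * (a ^ 2 + b ^ 2)) ^ 3 := h2
    _ = 8 * (a ^ 2 + b ^ 2) ^ 3 := by ring
    _ ≤ 32 * (a ^ 6 + b ^ 6) := by linarith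

theorem pow_six_nonneg (a : ℝ) : 0 ≤ a ^ 6 := by
  have : a ^ 6 = (a ^ 3) ^ 2 := by ring
  rw [this]; positivity

theorem g_le (j : ℕ) (i : Fin 6) (X : E) : g j i X ^ 6 ≤ 2048 + T j X := by
  have h6 := rho_pow_le j
  have hr : 0 ≤ rho j ^ 6 := by have := rho_pos j; positivity
  have hT := T_nonneg j X
  set b : ℝ := if i = 5 then tau (z j 5 X) else 0 with hb
  have hb1 : b ^ 6 ≤ 64 := by
    have h1 : |b| ≤ 2 := by
      rw [hb]
      split_ifs
      · exact tau_abs_le _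
      · norm_num
    have h2 := pow_le_pow_left₀ (abs_nonneg _) h1 6
    have h3 : |b| ^ 6 = b ^ 6 := by
      rw [show (6 : ℕ) = 2 * 3 from rfl, pow_mul, sq_abs, ← pow_mul]
    rw [h3] at h2
    norm_num at h2
    exact h2
  have hg : g j i X = rho j * ((Lm (del j) (PP j X) - 1) * z j i X + b) := rfl
  rw [hg, mul_pow]
  have h0 := add_pow_six ((Lm (del j) (PP j X) - 1) * z j i X) b
  rcases lt_or_ge (PP j X) 1 with h | h
  · rw [T_of_mem (mem_ball_of_PP h)]
    have hp := PP_nonneg j X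
    have hd := del_pos j
    set P := PP j X with hP
    have hpd : 0 < P + del j := by linarith
    have h1 : Lm (del j) P - 1 ≤ 1 / (4 * (P + del j)) := by
      have := Lm_le hd hp
      linarith
    have h2 : 0 ≤ Lm (del j) P - 1 := by
      have := Lm_ge_one hpd
      linarith
    have h3 : 32 * ((Lm (del j) P - 1) * z j i X) ^ 6 ≤ (del j)⁻¹ ^ 5 := by
      rw [mul_pow]
      have h4 : (Lm (del j) P - 1) ^ 6 ≤ (1 / (4 * (P + del j))) ^ 6 :=
        pow_le_pow_left₀ h2 h1 6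
      have h5 := z_pow_le j i X
      rw [← hP] at h5
      have h8 : (P + del j)⁻¹ ≤ (del j)⁻¹ := inv_anti₀ hd (by linarith)
      have h9 : (P + del j)⁻¹ ^ 5 ≤ (del j)⁻¹ ^ 5 := pow_le_pow_left₀ (by positivity) h8 5
      have h10 : (Lm (del j) P - 1) ^ 6 * z j i X ^ 6 ≤
          (1 / (4 * (P + del j))) ^ 6 * (P + del j) :=
        (mul_le_mul h4 h5 (pow_six_nonneg _) (by positivity)).trans
          (mul_le_mul_of_nonneg_left (by linarith) (by positivity))
      have h11 : (1 / (4 * (P + del j))) ^ 6 * (P + del j) = 1 / 4096 * (P + del j)⁻¹ ^ 5 := by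
        field_simp
        norm_num
      have h12 : 0 ≤ (P + del j)⁻¹ ^ 5 := by positivity
      linarith
    have h4 : rho j ^ 6 * ((Lm (del j) P - 1) * z j i X + b) ^ 6 ≤
        rho j ^ 6 * ((del j)⁻¹ ^ 5 + 2048) :=
      mul_le_mul_of_nonneg_left (by linarith) hr
    have h5 : rho j ^ 6 * ((del j)⁻¹ ^ 5 + 2048) = c j + 2048 * rho j ^ 6 := by
      unfold c; ring
    linarith
  · rw [Lm_of_ge h] at h0 ⊢
    rw [sub_self, zero_mul, zero_add] at h0 ⊢
    have : rho j ^ 6 * b ^ 6 ≤ 1 * 64 := mul_le_mul h6 hb1 (pow_six_nonneg _) zero_le_one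
    linarith

noncomputable def TT (X : E) : ℝ := ∑' j, T j X

theorem TT_nonneg (X : E) : 0 ≤ TT X := tsum_nonneg fun j => T_nonneg j X

theorem u_le (X : E) : |u X| ≤ |u0 X| + 192 + TT X := by
  unfold u TT
  rcases act X with h | ⟨k, _, h⟩
  · rw [tsum_none h (fun j hj => W_off hj), tsum_none h (fun j hj => T_off hj), add_zero]
    linarith
  · rw [tsum_one h (fun j hj => W_off hj), tsum_one h (fun j hj => T_off hj)]
    have := W_le k X
    have := abs_add_le (u0 X) (W k X)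
    linarith

theorem G0_le (i : Fin 6) (X : E) : |G0 i X| ≤ ‖X‖ := by
  unfold G0
  split_ifs
  · rw [abs_zero]; exact norm_nonneg _
  · rw [← Real.norm_eq_abs]
    exact PiLp.norm_apply_le X i

theorem abs_pow_six (a : ℝ) : |a| ^ 6 = a ^ 6 := by
  rw [show (6 : ℕ) = 2 * 3 from rfl, pow_mul, sq_abs, ← pow_mul]

theorem G_le (i : Fin 6) (X : E) : G i X ^ 6 ≤ 32 * (‖X‖ ^ 6 + 2048 + TT X) := by
  have h0 : G0 i X ^ 6 ≤ ‖X‖ ^ 6 := by
    rw [← abs_pow_six (G0 i X)]
    exact pow_le_pow_left₀ (abs_nonneg _) (G0_le i X) 6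
  have h0' := pow_six_nonneg (G0 i X)
  unfold G TT
  rcases act X with h | ⟨k, _, h⟩
  · rw [tsum_none h (fun j hj => g_off hj i), tsum_none h (fun j hj => T_off hj), add_zero]
    linarith
  · rw [tsum_one h (fun j hj => g_off hj i), tsum_one h (fun j hj => T_off hj)]
    have h1 := add_pow_six (G0 i X) (g k i X)
    have h2 := g_le k i X
    linarith

theorem measurable_T (j : ℕ) : Measurable (T j) :=
  measurable_const.indicator measurableSet_ball

theorem measurable_TT : Measurable TT := by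
  refine measurable_of_tendsto_metrizable (f := fun J X => ∑ j ∈ Finset.range J, T j X)
    (fun J => Finset.measurable_sum _ fun j _ => measurable_T j) ?_
  rw [tendsto_pi_nhds]
  intro X
  refine tendsto_const_nhds.congr' ?_
  unfold TT
  rcases act X with h | ⟨k, _, h⟩
  · refine Eventually.of_forall fun J => ?_
    beta_reduce
    rw [sum_none h (fun j hj => T_off hj), tsum_none h (fun j hj => T_off hj)]
  · filter_upwards [eventually_gt_atTop k] with J hk
    rw [sum_one h (fun j hj => T_off hj), if_pos hk, tsum_one h (fun j hj => T_off hj)]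

theorem vol_ball (x : E) {r : ℝ} (hr : 0 < r) :
    volume (ball x r) = ENNReal.ofReal (r ^ 6) * volume (ball (0 : E) 1) := by
  rw [Measure.addHaar_ball_of_pos volume x hr]
  simp

theorem lint_T (j : ℕ) : ∫⁻ X, ‖T j X‖ₑ ^ (6 / 5 : ℝ) =
    ENNReal.ofReal (729 * (1 / 2) ^ (12 * (j + 1))) * volume (ball (0 : E) 1) := by
  have h1 : (fun X => ‖T j X‖ₑ ^ (6 / 5 : ℝ)) =
      (ball (Y j) (3 * rho j)).indicator fun _ => ENNReal.ofReal (2 ^ (108 * (j + 1))) := by
    funext X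
    by_cases h : X ∈ ball (Y j) (3 * rho j)
    · rw [T_of_mem h, indicator_of_mem h, Real.enorm_eq_ofReal (c_nonneg j), c_eq,
        ENNReal.ofReal_rpow_of_pos (by positivity), ← Real.rpow_natCast, ← Real.rpow_natCast,
        ← Real.rpow_mul (by norm_num)]
      congr 2
      push_cast
      ring
    · unfold T
      rw [indicator_of_notMem h, indicator_of_notMem h]
      simp
  rw [h1, lintegral_indicator measurableSet_ball, setLIntegral_const,
    vol_ball _ (by have := rho_pos j; positivity), ← mul_assoc, ← ENNReal.ofReal_mul (by positivity)]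
  congr 2
  unfold rho
  rw [mul_pow, ← pow_mul]
  have : (2 : ℝ) ^ (108 * (j + 1)) * (3 ^ 6 * (1 / 2) ^ (20 * (j + 1) * 6)) =
      729 * (2 ^ (108 * (j + 1)) * (1 / 2) ^ (20 * (j + 1) * 6)) := by
    norm_num
    ring
  rw [this, show 20 * (j + 1) * 6 = 108 * (j + 1) + 12 * (j + 1) by ring, pow_add,
    ← mul_assoc (2 ^ (108 * (j + 1))), ← mul_pow]
  norm_num

theorem memLp_TT : MemLp TT (6 / 5) volume := by
  refine ⟨measurable_TT.aestronglyMeasurable, ?_⟩
  rw [eLpNorm_lt_top_iff_lintegral_rpow_enorm_lt_top (by norm_num) (by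
    refine ENNReal.div_ne_top (by norm_num) (by norm_num))]
  have e1 : ((6 / 5 : ℝ≥0∞)).toReal = 6 / 5 := by norm_num
  rw [e1]
  have h1 : ∀ X, ‖TT X‖ₑ ^ (6 / 5 : ℝ) = ∑' j, ‖T j X‖ₑ ^ (6 / 5 : ℝ) := by
    intro X
    have h0 : ∀ j, X ∉ slab j → ‖T j X‖ₑ ^ (6 / 5 : ℝ) = 0 := by
      intro j hj
      rw [T_off hj]
      simp
    unfold TT
    rcases act X with h | ⟨k, _, h⟩
    · rw [tsum_none h (fun j hj => T_off hj)]
      have : (fun j => ‖T j X‖ₑ ^ (6 / 5 : ℝ)) = fun _ => 0 := funext fun j => h0 j (h j)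
      rw [this, tsum_zero]
      simp
    · rw [tsum_one h (fun j hj => T_off hj), tsum_eq_single k fun j hj => h0 j (h j hj)]
  simp only [h1]
  rw [lintegral_tsum fun j => ((measurable_T j).enorm.pow_const _).aemeasurable]
  simp only [lint_T]
  rw [ENNReal.tsum_mul_right]
  refine ENNReal.mul_lt_top ?_ measure_ball_lt_top
  have hs : Summable fun j : ℕ => (729 : ℝ) * (1 / 2) ^ (12 * (j + 1)) := by
    have : Summable fun j : ℕ => (((1 : ℝ) / 2) ^ 12) ^ j :=
      summable_geometric_of_lt_one (by norm_num) (by norm_num)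
    have h2 := (this.mul_left (((1 : ℝ) / 2) ^ 12)).mul_left 729
    refine h2.congr fun j => ?_
    rw [← pow_mul, ← pow_add]
    congr 2
    ring
  rw [← ENNReal.ofReal_tsum_of_nonneg (fun j => by positivity) hs]
  exact ENNReal.ofReal_lt_top

end Pool.Agent.R215.LP
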