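import Pool.Agent.H314.Dir.Ker

set_option autoImplicit false
open MeasureTheory Filter Topology Set Metric

/-! One-dimensional profiles for the counterexample of MP_8e48cc_an. -/

namespace Pool.Agent.R215.LP

open Pool.Agent.H314.Dir

/-- the odd profile: `τ(s) = s` for `|s| ≤ 1`, `τ(s) = 0` for `|s| ≥ 3` -/
noncomputable def tau (s : ℝ) : ℝ :=
  s - 5 / 4 * ((max 0 (s - 1)) ^ 2 - (max 0 (-s - 1)) ^ 2) +
    2 * ((max 0 (s - 2)) ^ 2 - (max 0 (-s - 2)) ^ 2) -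
    3 / 4 * ((max 0 (s - 3)) ^ 2 - (max 0 (-s - 3)) ^ 2)

noncomputable def tau' (s : ℝ) : ℝ :=
  1 - 5 / 2 * (max 0 (s - 1) + max 0 (-s - 1)) + 4 * (max 0 (s - 2) + max 0 (-s - 2)) -
    3 / 2 * (max 0 (s - 3) + max 0 (-s - 3))

theorem hasDerivAt_pos (a s : ℝ) :
    HasDerivAt (fun s : ℝ => (max 0 (s - a)) ^ 2) (2 * max 0 (s - a)) s := by
  have h1 : HasDerivAt (fun s : ℝ => s - a) 1 s := (hasDerivAt_id s).sub_const a
  have h2 := (hasDerivAt_maxpow 0 (s - a)).comp s h1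
  refine h2.congr_deriv ?_
  norm_num

theorem hasDerivAt_neg (a s : ℝ) :
    HasDerivAt (fun s : ℝ => (max 0 (-s - a)) ^ 2) (-(2 * max 0 (-s - a))) s := by
  have h1 : HasDerivAt (fun s : ℝ => -s - a) (-1) s := (hasDerivAt_id s).neg.sub_const a
  have h2 := (hasDerivAt_maxpow 0 (-s - a)).comp s h1
  refine h2.congr_deriv ?_
  norm_num

theorem hasDerivAt_tau (s : ℝ) : HasDerivAt tau (tau' s) s := by
  have h := (((hasDerivAt_id s).sub (((hasDerivAt_pos 1 s).sub (hasDerivAt_neg 1 s)).const_mul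
    (5 / 4))).add (((hasDerivAt_pos 2 s).sub (hasDerivAt_neg 2 s)).const_mul 2)).sub
    (((hasDerivAt_pos 3 s).sub (hasDerivAt_neg 3 s)).const_mul (3 / 4))
  refine h.congr_deriv ?_
  unfold tau'
  ring

theorem continuous_tau : Continuous tau := by unfold tau; fun_prop

theorem continuous_tau' : Continuous tau' := by unfold tau'; fun_prop

theorem tau_neg (s : ℝ) : tau (-s) = -tau s := by
  unfold tau
  rw [neg_neg]
  ring

theorem tau_of_abs_le {s : ℝ} (h : |s| ≤ 1) : tau s = s := by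
  rw [abs_le] at h
  unfold tau
  rw [max_eq_left (by linarith), max_eq_left (by linarith), max_eq_left (by linarith),
    max_eq_left (by linarith), max_eq_left (by linarith), max_eq_left (by linarith)]
  ring

theorem tau_of_ge {s : ℝ} (h : 3 ≤ s) : tau s = 0 := by
  unfold tau
  rw [max_eq_right (by linarith : 0 ≤ s - 1), max_eq_left (by linarith : -s - 1 ≤ 0),
    max_eq_right (by linarith : 0 ≤ s - 2), max_eq_left (by linarith : -s - 2 ≤ 0),
    max_eq_right (by linarith : 0 ≤ s - 3), max_eq_left (by linarith : -s - 3 ≤ 0)]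
  ring

theorem tau_of_abs_ge {s : ℝ} (h : 3 ≤ |s|) : tau s = 0 := by
  rcases le_total 0 s with h0 | h0
  · rw [abs_of_nonneg h0] at h
    exact tau_of_ge h
  · rw [abs_of_nonpos h0] at h
    have := tau_of_ge h
    rw [tau_neg] at this
    linarith

theorem tau'_even (s : ℝ) : tau' (-s) = tau' s := by
  unfold tau'
  rw [neg_neg]
  ring

theorem tau'_of_ge {s : ℝ} (h : 3 ≤ s) : tau' s = 0 := by
  unfold tau'
  rw [max_eq_right (by linarith : 0 ≤ s - 1), max_eq_left (by linarith : -s - 1 ≤ 0),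
    max_eq_right (by linarith : 0 ≤ s - 2), max_eq_left (by linarith : -s - 2 ≤ 0),
    max_eq_right (by linarith : 0 ≤ s - 3), max_eq_left (by linarith : -s - 3 ≤ 0)]
  ring

theorem tau'_of_abs_ge {s : ℝ} (h : 3 ≤ |s|) : tau' s = 0 := by
  rcases le_total 0 s with h0 | h0
  · rw [abs_of_nonneg h0] at h
    exact tau'_of_ge h
  · rw [abs_of_nonpos h0] at h
    rw [← tau'_even]
    exact tau'_of_ge h

theorem tau'_ge_nonneg {s : ℝ} (h0 : 0 ≤ s) : -(3 / 2) ≤ tau' s := by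
  unfold tau'
  rw [max_eq_left (by linarith : -s - 1 ≤ 0), max_eq_left (by linarith : -s - 2 ≤ 0),
    max_eq_left (by linarith : -s - 3 ≤ 0)]
  rcases le_total s 1 with h1 | h1
  · rw [max_eq_left (by linarith : s - 1 ≤ 0), max_eq_left (by linarith : s - 2 ≤ 0),
      max_eq_left (by linarith : s - 3 ≤ 0)]
    norm_num
  rcases le_total s 2 with h2 | h2
  · rw [max_eq_right (by linarith : 0 ≤ s - 1), max_eq_left (by linarith : s - 2 ≤ 0),
      max_eq_left (by linarith : s - 3 ≤ 0)]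
    linarith
  rcases le_total s 3 with h3 | h3
  · rw [max_eq_right (by linarith : 0 ≤ s - 1), max_eq_right (by linarith : 0 ≤ s - 2),
      max_eq_left (by linarith : s - 3 ≤ 0)]
    linarith
  · rw [max_eq_right (by linarith : 0 ≤ s - 1), max_eq_right (by linarith : 0 ≤ s - 2),
      max_eq_right (by linarith : 0 ≤ s - 3)]
    linarith

theorem tau'_ge (s : ℝ) : -(3 / 2) ≤ tau' s := by
  rcases le_total 0 s with h0 | h0
  · exact tau'_ge_nonneg h0
  · rw [← tau'_even]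
    exact tau'_ge_nonneg (by linarith)

theorem tau_abs_le_nonneg {s : ℝ} (h0 : 0 ≤ s) : |tau s| ≤ 2 := by
  rcases le_total s 1 with h1 | h1
  · rw [tau_of_abs_le (by rw [abs_of_nonneg h0]; exact h1), abs_of_nonneg h0]
    linarith
  rcases le_total 3 s with h3 | h3
  · rw [tau_of_ge h3]; norm_num
  unfold tau
  rw [max_eq_left (by linarith : -s - 1 ≤ 0), max_eq_left (by linarith : -s - 2 ≤ 0),
    max_eq_left (by linarith : -s - 3 ≤ 0), max_eq_left (by linarith : s - 3 ≤ 0),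
    max_eq_right (by linarith : 0 ≤ s - 1)]
  rcases le_total s 2 with h2 | h2
  · rw [max_eq_left (by linarith : s - 2 ≤ 0), abs_le]
    constructor <;> nlinarith
  · rw [max_eq_right (by linarith : 0 ≤ s - 2), abs_le]
    constructor <;> nlinarith

theorem tau_abs_le (s : ℝ) : |tau s| ≤ 2 := by
  rcases le_total 0 s with h0 | h0
  · exact tau_abs_le_nonneg h0
  · rw [← abs_neg, ← tau_neg]
    exact tau_abs_le_nonneg (by linarith)

/-- the primitive of `-τ^5` vanishing at `-3` -/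
noncomputable def Bp (s : ℝ) : ℝ := -∫ t in (-3 : ℝ)..s, tau t ^ 5

theorem hasDerivAt_Bp (s : ℝ) : HasDerivAt Bp (-(tau s ^ 5)) s := by
  have hc : Continuous fun t => tau t ^ 5 := continuous_tau.pow 5
  exact (intervalIntegral.integral_hasDerivAt_right (hc.intervalIntegrable _ _)
    hc.stronglyMeasurable.stronglyMeasurableAtFilter hc.continuousAt).neg

theorem Bp_of_le {s : ℝ} (h : s ≤ -3) : Bp s = 0 := by
  unfold Bp
  have : (∫ t in (-3 : ℝ)..s, tau t ^ 5) = ∫ t in (-3 : ℝ)..s, (0 : ℝ) := by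
    refine intervalIntegral.integral_congr fun t ht => ?_
    rw [uIcc_of_ge h] at ht
    have h1 : 3 ≤ |t| := by
      rw [abs_of_nonpos (by linarith [ht.2])]
      linarith [ht.2]
    show tau t ^ 5 = 0
    rw [tau_of_abs_ge h1]
    norm_num
  rw [this]
  simp

theorem int_tau : (∫ t in (-3 : ℝ)..3, tau t ^ 5) = 0 := by
  have h1 : (∫ t in (-3 : ℝ)..3, tau (-t) ^ 5) = ∫ t in (-3 : ℝ)..3, tau t ^ 5 := by
    have := intervalIntegral.integral_comp_neg (a := (-3 : ℝ)) (b := 3) (fun t => tau t ^ 5)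
    rw [this, neg_neg]
  have h2 : (∫ t in (-3 : ℝ)..3, tau (-t) ^ 5) = -∫ t in (-3 : ℝ)..3, tau t ^ 5 := by
    rw [← intervalIntegral.integral_neg]
    refine intervalIntegral.integral_congr fun t _ => ?_
    show tau (-t) ^ 5 = -tau t ^ 5
    rw [tau_neg]
    ring
  linarith

theorem Bp_of_ge {s : ℝ} (h : 3 ≤ s) : Bp s = 0 := by
  unfold Bp
  have hc : Continuous fun t => tau t ^ 5 := continuous_tau.pow 5
  have h0 : (∫ t in (3 : ℝ)..s, tau t ^ 5) = 0 := by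
    have : (∫ t in (3 : ℝ)..s, tau t ^ 5) = ∫ t in (3 : ℝ)..s, (0 : ℝ) := by
      refine intervalIntegral.integral_congr fun t ht => ?_
      rw [uIcc_of_le h] at ht
      show tau t ^ 5 = 0
      rw [tau_of_ge ht.1]
      norm_num
    rw [this]
    simp
  rw [← intervalIntegral.integral_add_adjacent_intervals (b := (3 : ℝ))
    (hc.intervalIntegrable _ _) (hc.intervalIntegrable _ _), int_tau, h0]
  norm_num

theorem Bp_of_abs_ge {s : ℝ} (h : 3 ≤ |s|) : Bp s = 0 := by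
  rcases le_total 0 s with h0 | h0
  · rw [abs_of_nonneg h0] at h
    exact Bp_of_ge h
  · rw [abs_of_nonpos h0] at h
    exact Bp_of_le (by linarith)

theorem Bp_abs_le (s : ℝ) : |Bp s| ≤ 192 := by
  rcases le_total 3 |s| with h | h
  · rw [Bp_of_abs_ge h]; norm_num
  · rw [abs_le] at h
    unfold Bp
    rw [abs_neg]
    have h1 := intervalIntegral.norm_integral_le_of_norm_le_const (a := (-3 : ℝ)) (b := s)
      (f := fun t => tau t ^ 5) (C := 32) (fun t _ => by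
        rw [norm_pow, Real.norm_eq_abs]
        have := pow_le_pow_left₀ (abs_nonneg _) (tau_abs_le t) 5
        norm_num at this
        exact this)
    have h2 : |s - -3| ≤ 6 := by
      rw [abs_le]; constructor <;> linarith
    rw [Real.norm_eq_abs] at h1
    linarith

/-- the amplification factor -/
noncomputable def Lm (δ t : ℝ) : ℝ := 1 + 1 / 4 * ((max 0 (1 - t)) ^ 2 / (t + δ))

noncomputable def Lm' (δ t : ℝ) : ℝ :=
  1 / 4 * ((-(2 * max 0 (1 - t)) * (t + δ) - (max 0 (1 - t)) ^ 2) / (t + δ) ^ 2)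

theorem hasDerivAt_Lm {δ t : ℝ} (h : 0 < t + δ) : HasDerivAt (Lm δ) (Lm' δ t) t := by
  have h1 : HasDerivAt (fun t : ℝ => 1 - t) (-1) t := by
    simpa using (hasDerivAt_id t).const_sub 1
  have h2 : HasDerivAt (fun t : ℝ => (max 0 (1 - t)) ^ 2) (-(2 * max 0 (1 - t))) t := by
    refine ((hasDerivAt_maxpow 0 (1 - t)).comp t h1).congr_deriv ?_
    norm_num
  have h3 : HasDerivAt (fun t : ℝ => t + δ) 1 t := (hasDerivAt_id t).add_const δ
  have h4 := ((h2.div h3 h.ne').const_mul (1 / 4)).const_add 1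
  refine h4.congr_deriv ?_
  unfold Lm'
  ring

theorem Lm_ge_one {δ t : ℝ} (h : 0 < t + δ) : 1 ≤ Lm δ t := by
  unfold Lm
  have : 0 ≤ (max 0 (1 - t)) ^ 2 / (t + δ) := by positivity
  linarith

theorem Lm_of_ge {δ t : ℝ} (h : 1 ≤ t) : Lm δ t = 1 := by
  unfold Lm
  rw [max_eq_left (by linarith)]
  simp

theorem Lm'_of_ge {δ t : ℝ} (h : 1 ≤ t) : Lm' δ t = 0 := by
  unfold Lm'
  rw [max_eq_left (by linarith)]
  simp

theorem Lm_le {δ t : ℝ} (hδ : 0 < δ) (h0 : 0 ≤ t) : Lm δ t ≤ 1 + 1 / (4 * (t + δ)) := by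
  unfold Lm
  have h1 : max 0 (1 - t) ≤ 1 := max_le zero_le_one (by linarith)
  have h2 : (max 0 (1 - t)) ^ 2 ≤ 1 := pow_le_one₀ (le_max_left _ _) h1
  have h3 : (max 0 (1 - t)) ^ 2 / (t + δ) ≤ 1 / (t + δ) :=
    div_le_div_of_nonneg_right h2 (by positivity)
  have h4 : 1 / (4 * (t + δ)) = 1 / 4 * (1 / (t + δ)) := by
    rw [one_div_mul_one_div]
  rw [h4]
  linarith

/-- the divergence inequality -/
theorem div_key {δ t : ℝ} (hδ : 0 < δ) (h0 : 0 ≤ t) :
    -(1 / 2) ≤ (Lm δ t - 1) + t * Lm' δ t := by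
  have h : 0 < t + δ := by linarith
  unfold Lm Lm'
  set θ := max 0 (1 - t) with hθ
  have hθ0 : 0 ≤ θ := le_max_left _ _
  have hθ1 : θ ≤ 1 := max_le zero_le_one (by linarith)
  have e : 1 + 1 / 4 * (θ ^ 2 / (t + δ)) - 1 + t * (1 / 4 * ((-(2 * θ) * (t + δ) - θ ^ 2) /
      (t + δ) ^ 2)) = (1 / 4 * (θ ^ 2 * δ - 2 * θ * t * (t + δ))) / (t + δ) ^ 2 := by
    field_simp
    ring
  rw [e, le_div_iff₀ (by positivity)]
  have h1 : 0 ≤ θ ^ 2 * δ := by positivity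
  have h2 : θ * (t * (t + δ)) ≤ 1 * ((t + δ) * (t + δ)) := by
    apply mul_le_mul hθ1 _ (by positivity) zero_le_one
    apply mul_le_mul_of_nonneg_right _ h.le
    linarith
  nlinarith

theorem continuousOn_Lm {δ : ℝ} : ContinuousOn (Lm δ) (Ioi (-δ)) := fun t ht =>
  (hasDerivAt_Lm (by have : -δ < t := ht; linarith)).continuousAt.continuousWithinAt

/-- the spike profile -/
noncomputable def Sp (δ t : ℝ) : ℝ := 1 / 6 * ∫ s in t..(1 : ℝ), (Lm δ s ^ 5 - 1)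

theorem ii_Lm {δ a b : ℝ} (hδ : 0 < δ) (ha : 0 ≤ a) (hb : 0 ≤ b) :
    IntervalIntegrable (fun s => Lm δ s ^ 5 - 1) volume a b := by
  apply ContinuousOn.intervalIntegrable
  refine ((continuousOn_Lm.mono ?_).pow 5).sub continuousOn_const
  intro s hs
  have h1 : min a b ≤ s := hs.1
  have h2 : 0 ≤ min a b := le_min ha hb
  show -δ < s
  linarith

theorem hasDerivAt_Sp {δ t : ℝ} (hδ : 0 < δ) (h0 : 0 ≤ t) :
    HasDerivAt (Sp δ) (-(1 / 6 * (Lm δ t ^ 5 - 1))) t := by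
  have hc : ContinuousOn (fun s => Lm δ s ^ 5 - 1) (Ioi (-δ)) :=
    (continuousOn_Lm.pow 5).sub continuousOn_const
  have hmem : Ioi (-δ) ∈ 𝓝 t := Ioi_mem_nhds (by linarith)
  have h1 := intervalIntegral.integral_hasDerivAt_left (ii_Lm hδ h0 zero_le_one)
    (hc.stronglyMeasurableAtFilter isOpen_Ioi t (by show -δ < t; linarith))
    (hc.continuousAt hmem)
  have h2 := h1.const_mul (1 / 6)
  refine h2.congr_deriv ?_
  ring

theorem Sp_of_ge {δ t : ℝ} (h : 1 ≤ t) : Sp δ t = 0 := by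
  unfold Sp
  have : (∫ s in t..(1 : ℝ), (Lm δ s ^ 5 - 1)) = ∫ s in t..(1 : ℝ), (0 : ℝ) := by
    refine intervalIntegral.integral_congr fun s hs => ?_
    rw [uIcc_of_ge h] at hs
    show Lm δ s ^ 5 - 1 = 0
    rw [Lm_of_ge hs.1]
    norm_num
  rw [this]
  simp

theorem Sp_nonneg {δ t : ℝ} (hδ : 0 < δ) (h0 : 0 ≤ t) : 0 ≤ Sp δ t := by
  rcases le_total 1 t with h | h
  · rw [Sp_of_ge h]
  · unfold Sp
    apply mul_nonneg (by norm_num)
    apply intervalIntegral.integral_nonneg h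
    intro s hs
    have := Lm_ge_one (δ := δ) (t := s) (by linarith [hs.1])
    have := one_le_pow₀ (n := 5) this
    linarith

theorem Sp_le {δ t : ℝ} (hδ : 0 < δ) (hδ1 : δ ≤ 1) (h0 : 0 ≤ t) : Sp δ t ≤ (δ⁻¹) ^ 5 := by
  have hi : 1 ≤ δ⁻¹ := (one_le_inv₀ hδ).2 hδ1
  rcases le_total 1 t with h | h
  · rw [Sp_of_ge h]; positivity
  · unfold Sp
    have hb : ∀ s ∈ Icc t 1, Lm δ s ^ 5 - 1 ≤ 6 * (δ⁻¹) ^ 5 := by
      intro s hs
      have hs0 : 0 ≤ s := h0.trans hs.1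
      have h1 := Lm_le hδ hs0
      have h2 : 1 / (4 * (s + δ)) ≤ 1 / 4 * δ⁻¹ := by
        rw [one_div_mul_eq_div, one_div, div_eq_mul_inv, ← mul_inv_rev]
        apply inv_anti₀ (by positivity)
        nlinarith
      have h3 : Lm δ s ≤ 5 / 4 * δ⁻¹ := by linarith
      have h4 : 0 ≤ Lm δ s := by
        have := Lm_ge_one (δ := δ) (t := s) (by linarith)
        linarith
      have h5 := pow_le_pow_left₀ h4 h3 5
      rw [mul_pow] at h5
      have h6 : (5 / 4 : ℝ) ^ 5 ≤ 6 := by norm_num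
      have h7 : 0 ≤ (δ⁻¹) ^ 5 := by positivity
      nlinarith
    have h1 : (∫ s in t..(1 : ℝ), (Lm δ s ^ 5 - 1)) ≤ ∫ s in t..(1 : ℝ), 6 * (δ⁻¹) ^ 5 :=
      intervalIntegral.integral_mono_on h (ii_Lm hδ h0 zero_le_one) intervalIntegrable_const hb
    rw [intervalIntegral.integral_const, smul_eq_mul] at h1
    have h7 : 0 ≤ (δ⁻¹) ^ 5 := by positivity
    nlinarith

theorem Sp_ge {δ t : ℝ} (hδ : 0 < δ) (hδ1 : δ ≤ 1 / 4) (h0 : 0 ≤ t) (ht : t ≤ δ) :
    (δ⁻¹) ^ 4 / (6 * 48 ^ 5) ≤ Sp δ t := by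
  unfold Sp
  have hpos : ∀ s, 0 ≤ s → 0 ≤ Lm δ s ^ 5 - 1 := by
    intro s hs
    have := Lm_ge_one (δ := δ) (t := s) (by linarith)
    have := one_le_pow₀ (n := 5) this
    linarith
  have i1 := ii_Lm hδ h0 (show 0 ≤ 2 * δ by linarith)
  have i2 := ii_Lm hδ (show 0 ≤ 2 * δ by linarith) zero_le_one
  have i3 := ii_Lm hδ h0 hδ.le
  have i4 := ii_Lm hδ hδ.le (show 0 ≤ 2 * δ by linarith)
  have e1 : (∫ s in t..(1 : ℝ), (Lm δ s ^ 5 - 1)) = (∫ s in t..δ, (Lm δ s ^ 5 - 1)) +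
      (∫ s in δ..(2 * δ), (Lm δ s ^ 5 - 1)) + ∫ s in (2 * δ)..(1 : ℝ), (Lm δ s ^ 5 - 1) := by
    rw [intervalIntegral.integral_add_adjacent_intervals i3 i4,
      intervalIntegral.integral_add_adjacent_intervals i1 i2]
  have n1 : 0 ≤ ∫ s in t..δ, (Lm δ s ^ 5 - 1) :=
    intervalIntegral.integral_nonneg ht fun s hs => hpos s (h0.trans hs.1)
  have n3 : 0 ≤ ∫ s in (2 * δ)..(1 : ℝ), (Lm δ s ^ 5 - 1) :=
    intervalIntegral.integral_nonneg (by linarith) fun s hs => hpos s (by linarith [hs.1])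
  have n2 : (∫ s in δ..(2 * δ), ((48 * δ)⁻¹) ^ 5) ≤ ∫ s in δ..(2 * δ), (Lm δ s ^ 5 - 1) := by
    refine intervalIntegral.integral_mono_on (by linarith) intervalIntegrable_const i4
      fun s hs => ?_
    have hs0 : 0 < s := by linarith [hs.1]
    have h1 : 1 + (48 * δ)⁻¹ ≤ Lm δ s := by
      unfold Lm
      have h2 : 1 / 2 ≤ max 0 (1 - s) := le_trans (by linarith [hs.2]) (le_max_right _ _)
      have h3 : (1 / 2 : ℝ) ^ 2 ≤ (max 0 (1 - s)) ^ 2 := pow_le_pow_left₀ (by norm_num) h2 2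
      have h4 : (1 / 2 : ℝ) ^ 2 / (3 * δ) ≤ (max 0 (1 - s)) ^ 2 / (s + δ) :=
        div_le_div₀ (by positivity) h3 (by positivity) (by linarith [hs.2])
      have h5 : (48 * δ)⁻¹ = 1 / 4 * ((1 / 2 : ℝ) ^ 2 / (3 * δ)) := by
        field_simp
        norm_num
      rw [h5]
      linarith
    have hx : 0 ≤ (48 * δ)⁻¹ := by positivity
    have h2 := pow_le_pow_left₀ (by positivity) h1 5
    have h3 : 1 + ((48 * δ)⁻¹) ^ 5 ≤ (1 + (48 * δ)⁻¹) ^ 5 := by
      have : (1 + (48 * δ)⁻¹) ^ 5 = 1 + ((48 * δ)⁻¹) ^ 5 + (5 * (48 * δ)⁻¹ +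
        10 * ((48 * δ)⁻¹) ^ 2 + 10 * ((48 * δ)⁻¹) ^ 3 + 5 * ((48 * δ)⁻¹) ^ 4) := by ring
      rw [this]
      have : 0 ≤ 5 * (48 * δ)⁻¹ + 10 * ((48 * δ)⁻¹) ^ 2 + 10 * ((48 * δ)⁻¹) ^ 3 +
        5 * ((48 * δ)⁻¹) ^ 4 := by positivity
      linarith
    linarith
  rw [intervalIntegral.integral_const, smul_eq_mul] at n2
  have e2 : (2 * δ - δ) * ((48 * δ)⁻¹) ^ 5 = (δ⁻¹) ^ 4 / 48 ^ 5 := by
    field_simp
    ring
  rw [e2] at n2
  rw [e1]
  have e3 : (δ⁻¹) ^ 4 / (6 * 48 ^ 5) = 1 / 6 * ((δ⁻¹) ^ 4 / 48 ^ 5) := by ring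
  rw [e3]
  nlinarith

end Pool.Agent.R215.LP
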