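import Pool.Agent.R215.LP.Avg

set_option autoImplicit false
open MeasureTheory Filter Topology Set Metric
open scoped ENNReal NNReal

/-! The pseudo `p`-Laplacian nonlinearity with `p = 6/5`. -/

namespace Pool.Agent.R215.LP

noncomputable def ph (s : ℝ) : ℝ := s * |s| ^ ((6 : ℝ) / 5 - 2)

theorem ph_zero : ph 0 = 0 := by unfold ph; rw [zero_mul]

theorem ph_pow5 (s : ℝ) : ph s ^ 5 = s := by
  rcases eq_or_ne s 0 with h | h
  · rw [h, ph_zero]; norm_num
  · unfold ph
    have h0 : 0 < |s| := abs_pos.2 h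
    rw [mul_pow, ← Real.rpow_natCast (|s| ^ ((6 : ℝ) / 5 - 2)), ← Real.rpow_mul h0.le]
    have : ((6 : ℝ) / 5 - 2) * ((5 : ℕ) : ℝ) = -((4 : ℕ) : ℝ) := by norm_num
    rw [this, Real.rpow_neg h0.le, Real.rpow_natCast]
    have h4 : |s| ^ 4 = s ^ 4 := by
      rw [show (4 : ℕ) = 2 * 2 from rfl, pow_mul, sq_abs, ← pow_mul]
    rw [h4]
    field_simp

theorem pow5_strictMono : StrictMono fun t : ℝ => t ^ 5 :=
  Odd.strictMono_pow (by decide)

theorem ph_of_pow5 (t : ℝ) : ph (t ^ 5) = t :=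
  pow5_strictMono.injective (ph_pow5 (t ^ 5))

theorem ph_strictMono : StrictMono ph := by
  intro a b hab
  by_contra hc
  push Not at hc
  have := pow5_strictMono.monotone hc
  simp only [ph_pow5] at this
  linarith

theorem continuous_ph : Continuous ph :=
  ph_strictMono.monotone.continuous_of_surjective fun t => ⟨t ^ 5, ph_of_pow5 t⟩

theorem ph_mul (l s : ℝ) : ph (l * s) = (l * |l| ^ ((6 : ℝ) / 5 - 2)) * ph s := by
  unfold ph
  rw [abs_mul, Real.mul_rpow (abs_nonneg _) (abs_nonneg _)]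
  ring

theorem abs_ph (s : ℝ) : |ph s| = |s| ^ ((6 : ℝ) / 5 - 1) := by
  rcases eq_or_ne s 0 with h | h
  · rw [h, ph_zero, abs_zero, Real.zero_rpow (by norm_num)]
  · have h0 : 0 < |s| := abs_pos.2 h
    unfold ph
    rw [abs_mul, abs_of_nonneg (Real.rpow_nonneg (abs_nonneg s) _)]
    nth_rewrite 1 [← Real.rpow_one |s|]
    rw [← Real.rpow_add h0]
    norm_num

/-- the nonlinearity `A_i(h) = |h_i|^(p-2) h_i`, `p = 6/5` -/
noncomputable def op (h : E) : E := WithLp.toLp 2 fun i => ph (h i)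

theorem op_apply (h : E) (i : Fin 6) : op h i = ph (h i) := rfl

theorem op_V (X : E) : op (V X) = WithLp.toLp 2 fun i => -(G i X) := by
  ext i
  rw [op_apply, V_apply]
  show ph (-(G i X ^ 5)) = -(G i X)
  have : -(G i X ^ 5) = (-(G i X)) ^ 5 := by ring
  rw [this, ph_of_pow5]

theorem continuous_op : Continuous op := by
  unfold op
  have h1 : Continuous fun h : E => (fun i : Fin 6 => ph (h i)) :=
    continuous_pi fun i => continuous_ph.comp (EuclideanSpace.proj (𝕜 := ℝ) i).continuous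
  exact (PiLp.continuous_toLp 2 _).comp h1

theorem inner_op (a h : E) : inner ℝ (op a) h = ∑ i, ph (a i) * h i := by
  rw [PiLp.inner_apply]
  refine Finset.sum_congr rfl fun i _ => ?_
  rw [op_apply]
  simp [mul_comm]

theorem op_coer (h : E) : ‖h‖ ^ ((6 : ℝ) / 5) ≤ inner ℝ (op h) h := by
  rw [inner_op]
  rcases eq_or_ne h 0 with h0 | h0
  · rw [h0, norm_zero, Real.zero_rpow (by norm_num)]
    simp
  · have hn : 0 < ‖h‖ := norm_pos_iff.2 h0
    have h1 : ∀ i, (h i) ^ 2 * ‖h‖ ^ ((6 : ℝ) / 5 - 2) ≤ ph (h i) * h i := by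
      intro i
      unfold ph
      rcases eq_or_ne (h i) 0 with hi | hi
      · rw [hi]; simp
      · have hp : 0 < |h i| := abs_pos.2 hi
        have h2 : |h i| ≤ ‖h‖ := by
          rw [← Real.norm_eq_abs]; exact PiLp.norm_apply_le h i
        have h3 : ‖h‖ ^ ((6 : ℝ) / 5 - 2) ≤ |h i| ^ ((6 : ℝ) / 5 - 2) :=
          Real.rpow_le_rpow_of_nonpos hp h2 (by norm_num)
        have h4 := mul_le_mul_of_nonneg_left h3 (sq_nonneg (h i))
        linarith
    have h2 : ∑ i, (h i) ^ 2 * ‖h‖ ^ ((6 : ℝ) / 5 - 2) = ‖h‖ ^ ((6 : ℝ) / 5) := by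
      rw [← Finset.sum_mul]
      have : ∑ i, (h i) ^ 2 = ‖h‖ ^ 2 := by
        rw [EuclideanSpace.norm_sq_eq]
        refine Finset.sum_congr rfl fun i _ => ?_
        rw [Real.norm_eq_abs, sq_abs]
      rw [this, ← Real.rpow_natCast, ← Real.rpow_add hn]
      norm_num
    rw [← h2]
    exact Finset.sum_le_sum fun i _ => h1 i

theorem op_bound (h : E) : ‖op h‖ ≤ 6 * ‖h‖ ^ ((6 : ℝ) / 5 - 1) := by
  refine (norm_le_sum (op h)).trans ?_
  have : ∑ i, |op h i| ≤ ∑ _i : Fin 6, ‖h‖ ^ ((6 : ℝ) / 5 - 1) := by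
    refine Finset.sum_le_sum fun i _ => ?_
    rw [op_apply, abs_ph]
    refine Real.rpow_le_rpow (abs_nonneg _) ?_ (by norm_num)
    rw [← Real.norm_eq_abs]; exact PiLp.norm_apply_le h i
  simpa using this

theorem op_mono {a b : E} (h : a ≠ b) : 0 < inner ℝ (op a - op b) (a - b) := by
  have h1 : inner ℝ (op a - op b) (a - b) = ∑ i, (ph (a i) - ph (b i)) * (a i - b i) := by
    rw [inner_sub_left, inner_op, inner_op, ← Finset.sum_sub_distrib]
    refine Finset.sum_congr rfl fun i _ => ?_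
    rw [PiLp.sub_apply]
    ring
  rw [h1]
  have hn : ∀ s t : ℝ, 0 ≤ (ph s - ph t) * (s - t) := by
    intro s t
    rcases le_total s t with hst | hst
    · have := ph_strictMono.monotone hst
      exact mul_nonneg_of_nonpos_of_nonpos (by linarith) (by linarith)
    · have := ph_strictMono.monotone hst
      exact mul_nonneg (by linarith) (by linarith)
  have hex : ∃ i, a i ≠ b i := by
    by_contra hc
    push Not at hc
    exact h (by ext i; exact hc i)
  obtain ⟨i, hi⟩ := hex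
  refine Finset.sum_pos' (fun i _ => hn _ _) ⟨i, Finset.mem_univ i, ?_⟩
  rcases lt_or_gt_of_ne hi with hlt | hlt
  · have := ph_strictMono hlt
    exact mul_pos_of_neg_of_neg (by linarith) (by linarith)
  · have := ph_strictMono hlt
    exact mul_pos (by linarith) (by linarith)

theorem op_smul (l : ℝ) (h : E) : op (l • h) = (l * |l| ^ ((6 : ℝ) / 5 - 2)) • op h := by
  ext i
  rw [op_apply, PiLp.smul_apply, PiLp.smul_apply, smul_eq_mul, smul_eq_mul, op_apply, ph_mul]

end Pool.Agent.R215.LP
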