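import Pool.Agent.R215.LP.Block

set_option autoImplicit false
open MeasureTheory Filter Topology Set Metric

/-! Summing the blocks. -/

namespace Pool.Agent.R215.LP

noncomputable def uJ (J : ℕ) (X : E) : ℝ := u0 X + ∑ j ∈ Finset.range J, W j X
noncomputable def GJ (J : ℕ) (i : Fin 6) (X : E) : ℝ := G0 i X + ∑ j ∈ Finset.range J, g j i X
noncomputable def u (X : E) : ℝ := u0 X + ∑' j, W j X
noncomputable def G (i : Fin 6) (X : E) : ℝ := G0 i X + ∑' j, g j i X

theorem act (X : E) : (∀ j, X ∉ slab j) ∨ ∃ k, X ∈ slab k ∧ ∀ j, j ≠ k → X ∉ slab j := by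
  by_cases h : ∃ k, X ∈ slab k
  · obtain ⟨k, hk⟩ := h
    exact Or.inr ⟨k, hk, fun j hj => slab_disj hj.symm hk⟩
  · push Not at h
    exact Or.inl h

theorem tsum_none {X : E} (h : ∀ j, X ∉ slab j) {a : ℕ → ℝ} (ha : ∀ j, X ∉ slab j → a j = 0) :
    ∑' j, a j = 0 := by
  have : a = fun _ => 0 := funext fun j => ha j (h j)
  rw [this, tsum_zero]

theorem tsum_one {X : E} {k : ℕ} (h : ∀ j, j ≠ k → X ∉ slab j) {a : ℕ → ℝ}
    (ha : ∀ j, X ∉ slab j → a j = 0) : ∑' j, a j = a k :=
  tsum_eq_single k fun j hj => ha j (h j hj)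

theorem sum_one {X : E} {k : ℕ} (h : ∀ j, j ≠ k → X ∉ slab j) {a : ℕ → ℝ}
    (ha : ∀ j, X ∉ slab j → a j = 0) (J : ℕ) :
    ∑ j ∈ Finset.range J, a j = if k < J then a k else 0 := by
  by_cases hk : k < J
  · rw [if_pos hk]
    exact Finset.sum_eq_single k (fun j _ hj => ha j (h j hj))
      fun hn => absurd (Finset.mem_range.2 hk) hn
  · rw [if_neg hk]
    refine Finset.sum_eq_zero fun j hj => ha j (h j ?_)
    have := Finset.mem_range.1 hj
    omega

theorem sum_none {X : E} (h : ∀ j, X ∉ slab j) {a : ℕ → ℝ} (ha : ∀ j, X ∉ slab j → a j = 0)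
    (J : ℕ) : ∑ j ∈ Finset.range J, a j = 0 :=
  Finset.sum_eq_zero fun j _ => ha j (h j)

theorem dich (J : ℕ) (X : E) : (uJ J X = u0 X ∧ ∀ i, GJ J i X = G0 i X) ∨
    (uJ J X = u X ∧ ∀ i, GJ J i X = G i X) := by
  unfold uJ GJ u G
  rcases act X with h | ⟨k, _, h⟩
  · left
    refine ⟨?_, fun i => ?_⟩
    · rw [sum_none h (fun j hj => W_off hj), add_zero]
    · rw [sum_none h (fun j hj => g_off hj i), add_zero]
  · by_cases hk : k < J
    · right
      refine ⟨?_, fun i => ?_⟩
      · rw [sum_one h (fun j hj => W_off hj), if_pos hk, tsum_one h (fun j hj => W_off hj)]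
      · rw [sum_one h (fun j hj => g_off hj i), if_pos hk, tsum_one h (fun j hj => g_off hj i)]
    · left
      refine ⟨?_, fun i => ?_⟩
      · rw [sum_one h (fun j hj => W_off hj), if_neg hk, add_zero]
      · rw [sum_one h (fun j hj => g_off hj i), if_neg hk, add_zero]

theorem evt (X : E) : ∀ᶠ J in atTop, uJ J X = u X ∧ ∀ i, GJ J i X = G i X := by
  unfold uJ GJ u G
  rcases act X with h | ⟨k, _, h⟩
  · refine Eventually.of_forall fun J => ⟨?_, fun i => ?_⟩
    · rw [sum_none h (fun j hj => W_off hj), tsum_none h (fun j hj => W_off hj)]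
    · rw [sum_none h (fun j hj => g_off hj i), tsum_none h (fun j hj => g_off hj i)]
  · filter_upwards [eventually_gt_atTop k] with J hk
    refine ⟨?_, fun i => ?_⟩
    · rw [sum_one h (fun j hj => W_off hj), if_pos hk, tsum_one h (fun j hj => W_off hj)]
    · rw [sum_one h (fun j hj => g_off hj i), if_pos hk, tsum_one h (fun j hj => g_off hj i)]

theorem differentiable_uJ (J : ℕ) : Differentiable ℝ (uJ J) := by
  unfold uJ
  exact differentiable_u0.add (Differentiable.fun_sum fun j _ => differentiable_W j)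

theorem differentiable_GJ (J : ℕ) (i : Fin 6) : Differentiable ℝ (GJ J i) := by
  unfold GJ
  exact (differentiable_G0 i).add (Differentiable.fun_sum fun j _ => differentiable_g j i)

theorem fderiv_uJ (J : ℕ) (X : E) (i : Fin 6) :
    fderiv ℝ (uJ J) X (e i) = -(GJ J i X ^ 5) := by
  have h1 : HasFDerivAt (uJ J) (fderiv ℝ u0 X + ∑ j ∈ Finset.range J, fderiv ℝ (W j) X) X :=
    (differentiable_u0 X).hasFDerivAt.add
      (HasFDerivAt.fun_sum fun j _ => (differentiable_W j X).hasFDerivAt)
  rw [h1.fderiv, _root_.add_apply, _root_.sum_apply, fderiv_u0]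
  simp only [fderiv_W]
  have hoff : ∀ j, X ∉ slab j → -((G0 i X + g j i X) ^ 5 - G0 i X ^ 5) = 0 := by
    intro j hj
    rw [g_off hj]
    ring
  unfold GJ
  rcases act X with h | ⟨k, _, h⟩
  · rw [sum_none h hoff, sum_none h (fun j hj => g_off hj i)]
    ring
  · rw [sum_one h hoff, sum_one h (fun j hj => g_off hj i)]
    split_ifs
    · ring
    · ring

theorem sum_fderiv_GJ_ge (J : ℕ) (X : E) : 0 ≤ ∑ i, fderiv ℝ (GJ J i) X (e i) := by
  have h1 : ∀ i, fderiv ℝ (GJ J i) X (e i) = fderiv ℝ (G0 i) X (e i) +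
      ∑ j ∈ Finset.range J, fderiv ℝ (g j i) X (e i) := by
    intro i
    have h1 : HasFDerivAt (GJ J i) (fderiv ℝ (G0 i) X +
        ∑ j ∈ Finset.range J, fderiv ℝ (g j i) X) X :=
      (differentiable_G0 i X).hasFDerivAt.add
        (HasFDerivAt.fun_sum fun j _ => (differentiable_g j i X).hasFDerivAt)
    rw [h1.fderiv, _root_.add_apply, _root_.sum_apply]
  simp only [h1]
  rw [Finset.sum_add_distrib, sum_fderiv_G0, Finset.sum_comm]
  rcases act X with h | ⟨k, _, h⟩
  · rw [sum_none h (fun j hj => sum_fderiv_g_off hj)]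
    norm_num
  · rw [sum_one h (fun j hj => sum_fderiv_g_off hj)]
    split_ifs
    · have := sum_fderiv_g_ge k X
      linarith
    · norm_num

theorem continuous_GJ (J : ℕ) (i : Fin 6) : Continuous (GJ J i) := (differentiable_GJ J i).continuous
theorem continuous_uJ (J : ℕ) : Continuous (uJ J) := (differentiable_uJ J).continuous

theorem measurable_u : Measurable u := by
  refine measurable_of_tendsto_metrizable (fun J => (continuous_uJ J).measurable) ?_
  rw [tendsto_pi_nhds]
  intro X
  refine tendsto_const_nhds.congr' ?_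
  filter_upwards [evt X] with J hJ
  exact hJ.1.symm

theorem measurable_G (i : Fin 6) : Measurable (G i) := by
  refine measurable_of_tendsto_metrizable (fun J => (continuous_GJ J i).measurable) ?_
  rw [tendsto_pi_nhds]
  intro X
  refine tendsto_const_nhds.congr' ?_
  filter_upwards [evt X] with J hJ
  exact (hJ.2 i).symm

theorem continuous_fderiv_g (j : ℕ) (i : Fin 6) :
    Continuous fun X => fderiv ℝ (g j i) X (e i) := by
  simp only [fderiv_g]
  have hP : Continuous (PP j) := continuous_iff_continuousAt.2 fun X =>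
    (hasFDerivAt_PP j X).continuousAt
  have hz : ∀ i, Continuous (z j i) := fun i => continuous_iff_continuousAt.2 fun X =>
    (hasFDerivAt_z j i X).continuousAt
  have hm : ∀ X, PP j X ∈ Ioi (-del j) := fun X => by
    have := PP_nonneg j X
    have := del_pos j
    show -del j < PP j X
    linarith
  have hL : Continuous fun X => Lm (del j) (PP j X) :=
    continuousOn_Lm.comp_continuous hP hm
  have hne : ∀ X, PP j X + del j ≠ 0 := fun X =>
    (add_pos_of_nonneg_of_pos (PP_nonneg j X) (del_pos j)).ne'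
  have hL' : Continuous fun X => Lm' (del j) (PP j X) := by
    unfold Lm'
    refine continuous_const.mul (Continuous.div ?_ ?_ fun X => pow_ne_zero _ (hne X))
    · fun_prop
    · fun_prop
  have ht : Continuous fun X => tau' (z j 5 X) := continuous_tau'.comp (hz 5)
  by_cases hi : i = 5
  · simp only [hi, if_true]
    have := hz 5
    fun_prop
  · simp only [hi, if_false]
    have := hz i
    fun_prop

theorem continuous_fderiv_GJ (J : ℕ) (i : Fin 6) :
    Continuous fun X => fderiv ℝ (GJ J i) X (e i) := by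
  have h1 : (fun X => fderiv ℝ (GJ J i) X (e i)) = fun X => fderiv ℝ (G0 i) X (e i) +
      ∑ j ∈ Finset.range J, fderiv ℝ (g j i) X (e i) := by
    funext X
    have h1 : HasFDerivAt (GJ J i) (fderiv ℝ (G0 i) X +
        ∑ j ∈ Finset.range J, fderiv ℝ (g j i) X) X :=
      (differentiable_G0 i X).hasFDerivAt.add
        (HasFDerivAt.fun_sum fun j _ => (differentiable_g j i X).hasFDerivAt)
    rw [h1.fderiv, _root_.add_apply, _root_.sum_apply]
  rw [h1]
  simp only [fderiv_G0]
  exact continuous_const.add (continuous_finsetSum _ fun j _ => continuous_fderiv_g j i)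

/-- first weak identity for the partial sums -/
theorem weak_uJ (J : ℕ) (i : Fin 6) {φ : E → ℝ} (hφ : ContDiff ℝ 1 φ) (hc : HasCompactSupport φ) :
    ∫ X, uJ J X * fderiv ℝ φ X (e i) = ∫ X, GJ J i X ^ 5 * φ X := by
  have hd : Continuous fun X => fderiv ℝ φ X (e i) :=
    (hφ.continuous_fderiv one_ne_zero).clm_apply continuous_const
  have hdc : HasCompactSupport fun X => fderiv ℝ φ X (e i) := hc.fderiv_apply ℝ (e i)
  have h1 : (fun X => fderiv ℝ (uJ J) X (e i)) = fun X => -(GJ J i X ^ 5) := by
    funext X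
    exact fderiv_uJ J X i
  have hG := continuous_GJ J i
  have hu := continuous_uJ J
  have h := integral_mul_fderiv_eq_neg_fderiv_mul_of_integrable (μ := volume) (f := uJ J)
    (g := φ) (v := e i) ?_ ?_ ?_ (fun X _ => differentiable_uJ J X)
    (fun X _ => hφ.differentiable one_ne_zero X)
  · rw [h, ← integral_neg]
    refine integral_congr_ae (Eventually.of_forall fun X => ?_)
    show -(fderiv ℝ (uJ J) X (e i) * φ X) = _
    rw [fderiv_uJ]
    ring
  · simp only [fderiv_uJ]
    exact ((hG.pow 5).neg.mul hφ.continuous).integrable_of_hasCompactSupport hc.mul_left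
  · exact (hu.mul hd).integrable_of_hasCompactSupport hdc.mul_left
  · exact (hu.mul hφ.continuous).integrable_of_hasCompactSupport hc.mul_left

/-- the differential inequality for the partial sums -/
theorem weak_GJ (J : ℕ) {φ : E → ℝ} (hφ : ContDiff ℝ 1 φ) (hc : HasCompactSupport φ)
    (h0 : ∀ X, 0 ≤ φ X) :
    ∑ i, ∫ X, GJ J i X * fderiv ℝ φ X (e i) ≤ 0 := by
  have h1 : ∀ i, ∫ X, GJ J i X * fderiv ℝ φ X (e i) = -∫ X, fderiv ℝ (GJ J i) X (e i) * φ X := by
    intro i
    have hd : Continuous fun X => fderiv ℝ φ X (e i) :=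
      (hφ.continuous_fderiv one_ne_zero).clm_apply continuous_const
    have hdc : HasCompactSupport fun X => fderiv ℝ φ X (e i) := hc.fderiv_apply ℝ (e i)
    have hG := continuous_GJ J i
    exact integral_mul_fderiv_eq_neg_fderiv_mul_of_integrable (μ := volume) (f := GJ J i)
      (g := φ) (v := e i)
      (((continuous_fderiv_GJ J i).mul hφ.continuous).integrable_of_hasCompactSupport hc.mul_left)
      ((hG.mul hd).integrable_of_hasCompactSupport hdc.mul_left)
      ((hG.mul hφ.continuous).integrable_of_hasCompactSupport hc.mul_left)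
      (fun X _ => differentiable_GJ J i X) (fun X _ => hφ.differentiable one_ne_zero X)
  simp only [h1]
  rw [Finset.sum_neg_distrib, ← integral_finsetSum]
  · rw [neg_nonpos]
    refine integral_nonneg fun X => ?_
    show 0 ≤ ∑ i, fderiv ℝ (GJ J i) X (e i) * φ X
    rw [← Finset.sum_mul]
    exact mul_nonneg (sum_fderiv_GJ_ge J X) (h0 X)
  · intro i _
    exact ((continuous_fderiv_GJ J i).mul hφ.continuous).integrable_of_hasCompactSupport
      hc.mul_left

end Pool.Agent.R215.LP
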