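import Pool.Agent.R215.LP.Int

set_option autoImplicit false
open MeasureTheory Filter Topology Set Metric
open scoped ENNReal NNReal

/-! The limit function is a weak supersolution. -/

namespace Pool.Agent.R215.LP

/-- the weak gradient of `u` -/
noncomputable def V (X : E) : E := WithLp.toLp 2 fun i => -(G i X ^ 5)

theorem V_apply (X : E) (i : Fin 6) : V X i = -(G i X ^ 5) := rfl

theorem measurable_V : Measurable V := by
  unfold V
  have h : Measurable fun X : E => (fun i : Fin 6 => -(G i X ^ 5)) :=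
    measurable_pi_iff.2 fun i => ((measurable_G i).pow_const 5).neg
  exact (WithLp.measurable_toLp 2 (Fin 6 → ℝ)).comp h

theorem u0_le (X : E) : |u0 X| ≤ ‖X‖ ^ 6 := by
  unfold u0
  rw [abs_neg, abs_mul, abs_of_nonneg (by norm_num : (0:ℝ) ≤ 1 / 6),
    abs_of_nonneg (Finset.sum_nonneg fun i _ => pow_six_nonneg _)]
  have : ∑ i, G0 i X ^ 6 ≤ ∑ _i : Fin 6, ‖X‖ ^ 6 := by
    refine Finset.sum_le_sum fun i _ => ?_
    rw [← abs_pow_six (G0 i X)]
    exact pow_le_pow_left₀ (abs_nonneg _) (G0_le i X) 6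
  simp only [Finset.sum_const, Finset.card_univ, Fintype.card_fin, nsmul_eq_mul] at this
  push_cast at this
  linarith

theorem fin_ball (R : ℝ) : IsFiniteMeasure (volume.restrict (ball (0 : E) R)) :=
  ⟨by rw [Measure.restrict_apply_univ]; exact measure_ball_lt_top⟩

theorem memLp_TT' (R : ℝ) : MemLp TT (6 / 5) (volume.restrict (ball (0 : E) R)) :=
  memLp_TT.restrict _

theorem memLp_u (R : ℝ) : MemLp u (6 / 5) (volume.restrict (ball (0 : E) R)) := by
  have := fin_ball R
  have h0 : MemLp (fun _ : E => R ^ 6 + 192) (6 / 5) (volume.restrict (ball (0 : E) R)) :=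
    memLp_const _
  have h1 : MemLp (fun X => (R ^ 6 + 192) + TT X) (6 / 5) (volume.restrict (ball (0 : E) R)) :=
    h0.add (memLp_TT' R)
  refine h1.mono' measurable_u.aestronglyMeasurable ?_
  filter_upwards [ae_restrict_mem measurableSet_ball] with X hX
  rw [mem_ball_zero_iff] at hX
  rw [Real.norm_eq_abs]
  have h2 := u_le X
  have h3 := u0_le X
  have h4 := pow_le_pow_left₀ (norm_nonneg X) hX.le 6
  linarith

theorem memLp_G5 (R : ℝ) (i : Fin 6) :
    MemLp (fun X => -(G i X ^ 5)) (6 / 5) (volume.restrict (ball (0 : E) R)) := by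
  have := fin_ball R
  set F : E → ℝ := fun X => 32 * (R ^ 6 + 2048 + TT X) with hF
  have hF1 : MemLp F 1 (volume.restrict (ball (0 : E) R)) := by
    have h1 : MemLp TT 1 (volume.restrict (ball (0 : E) R)) :=
      (memLp_TT' R).mono_exponent (by
        rw [ENNReal.le_div_iff_mul_le (Or.inl (by norm_num)) (Or.inl (by norm_num))]
        norm_num)
    have h0 : MemLp (fun _ : E => R ^ 6 + 2048) 1 (volume.restrict (ball (0 : E) R)) :=
      memLp_const _
    exact (h0.add h1).const_mul 32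
  have h2 := hF1.norm_rpow_div (5 / 6 : ℝ≥0∞)
  have e1 : (1 : ℝ≥0∞) / (5 / 6) = 6 / 5 := by
    rw [one_div, ENNReal.inv_div (Or.inl (by norm_num)) (Or.inl (by norm_num))]
  have e2 : (5 / 6 : ℝ≥0∞).toReal = 5 / 6 := by norm_num
  rw [e1, e2] at h2
  refine h2.mono' ((measurable_G i).pow_const 5).neg.aestronglyMeasurable ?_
  filter_upwards [ae_restrict_mem measurableSet_ball] with X hX
  rw [mem_ball_zero_iff] at hX
  rw [norm_neg, norm_pow, Real.norm_eq_abs, Real.norm_eq_abs]
  have h4 := pow_le_pow_left₀ (norm_nonneg X) hX.le 6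
  have h5 := G_le i X
  have h6 : |G i X| ^ 6 ≤ |F X| := by
    rw [abs_pow_six]
    refine le_trans ?_ (le_abs_self _)
    show G i X ^ 6 ≤ 32 * (R ^ 6 + 2048 + TT X)
    linarith
  have h7 : |G i X| ^ 5 = (|G i X| ^ 6) ^ (5 / 6 : ℝ) := by
    rw [← Real.rpow_natCast, ← Real.rpow_natCast, ← Real.rpow_mul (abs_nonneg _)]
    norm_num
  rw [h7]
  exact Real.rpow_le_rpow (by positivity) h6 (by norm_num)

theorem norm_le_sum (v : E) : ‖v‖ ≤ ∑ i, |v i| := by
  have h1 : ‖v‖ ^ 2 ≤ (∑ i, |v i|) ^ 2 := by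
    rw [EuclideanSpace.norm_sq_eq]
    calc ∑ i, ‖v i‖ ^ 2 = ∑ i, |v i| * |v i| := by
          refine Finset.sum_congr rfl fun i _ => ?_
          rw [Real.norm_eq_abs, sq]
      _ ≤ ∑ i, |v i| * ∑ k, |v k| := by
          refine Finset.sum_le_sum fun i _ => ?_
          exact mul_le_mul_of_nonneg_left
            (Finset.single_le_sum (f := fun k => |v k|) (fun k _ => abs_nonneg _)
              (Finset.mem_univ i)) (abs_nonneg _)
      _ = (∑ i, |v i|) ^ 2 := by rw [← Finset.sum_mul, sq]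
  exact le_of_sq_le_sq h1 (Finset.sum_nonneg fun i _ => abs_nonneg _)

theorem memLp_V (R : ℝ) : MemLp V (6 / 5) (volume.restrict (ball (0 : E) R)) := by
  have h1 : MemLp (fun X => ∑ i, ‖-(G i X ^ 5)‖) (6 / 5) (volume.restrict (ball (0 : E) R)) :=
    memLp_finsetSum _ fun i _ => (memLp_G5 R i).norm
  refine h1.mono' measurable_V.aestronglyMeasurable (Eventually.of_forall fun X => ?_)
  exact norm_le_sum (V X)

theorem one_le_p : (1 : ℝ≥0∞) ≤ 6 / 5 := by
  rw [ENNReal.le_div_iff_mul_le (Or.inl (by norm_num)) (Or.inl (by norm_num))]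
  norm_num

theorem locInt_of {f : E → ℝ} (h : ∀ R, MemLp f (6 / 5) (volume.restrict (ball (0 : E) R))) :
    LocallyIntegrable f := by
  intro x
  refine ⟨ball 0 (‖x‖ + 1), isOpen_ball.mem_nhds ?_, ?_⟩
  · rw [mem_ball_zero_iff]; linarith
  · have := fin_ball (‖x‖ + 1)
    exact (h (‖x‖ + 1)).integrable one_le_p

theorem locInt_u : LocallyIntegrable u := locInt_of memLp_u
theorem locInt_G5 (i : Fin 6) : LocallyIntegrable fun X => -(G i X ^ 5) :=
  locInt_of fun R => memLp_G5 R i

theorem memLp_G (R : ℝ) (i : Fin 6) :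
    MemLp (G i) (6 / 5) (volume.restrict (ball (0 : E) R)) := by
  have := fin_ball R
  have h0 : MemLp (fun _ : E => (1 : ℝ)) (6 / 5) (volume.restrict (ball (0 : E) R)) :=
    memLp_const _
  have h1 : MemLp (fun X => 1 + ‖-(G i X ^ 5)‖) (6 / 5) (volume.restrict (ball (0 : E) R)) :=
    h0.add (memLp_G5 R i).norm
  refine h1.mono' (measurable_G i).aestronglyMeasurable (Eventually.of_forall fun X => ?_)
  rw [norm_neg, norm_pow]
  rcases le_total ‖G i X‖ 1 with h | h
  · have : 0 ≤ ‖G i X‖ ^ 5 := by positivity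
    linarith
  · have : ‖G i X‖ ^ 1 ≤ ‖G i X‖ ^ 5 := pow_le_pow_right₀ h (by norm_num)
    rw [pow_one] at this
    linarith

theorem locInt_G (i : Fin 6) : LocallyIntegrable (G i) := locInt_of fun R => memLp_G R i

/-- passage to the limit -/
theorem tendsto_int {a : ℕ → E → ℝ} {a0 a1 : E → ℝ} (hd : ∀ J X, a J X = a0 X ∨ a J X = a1 X)
    (he : ∀ X, ∀ᶠ J in atTop, a J X = a1 X) (ha : ∀ J, Continuous (a J)) (h0 : Continuous a0)
    (h1 : LocallyIntegrable a1) {ψ : E → ℝ} (hψ : Continuous ψ) (hc : HasCompactSupport ψ) :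
    Tendsto (fun J => ∫ X, a J X * ψ X) atTop (𝓝 (∫ X, a1 X * ψ X)) := by
  have i0 : Integrable fun X => a0 X * ψ X :=
    (h0.mul hψ).integrable_of_hasCompactSupport hc.mul_left
  have i1 : Integrable fun X => a1 X * ψ X :=
    h1.integrable_smul_right_of_hasCompactSupport hψ hc
  refine tendsto_integral_of_dominated_convergence (fun X => ‖a0 X * ψ X‖ + ‖a1 X * ψ X‖)
    (fun J => ((ha J).mul hψ).aestronglyMeasurable) (i0.norm.add i1.norm)
    (fun J => Eventually.of_forall fun X => ?_) (Eventually.of_forall fun X => ?_)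
  · rcases hd J X with h | h
    · rw [h]; exact le_add_of_nonneg_right (norm_nonneg _)
    · rw [h]; exact le_add_of_nonneg_left (norm_nonneg _)
  · refine tendsto_const_nhds.congr' ?_
    filter_upwards [he X] with J hJ
    rw [hJ]

theorem weak_u (i : Fin 6) {φ : E → ℝ} (hφ : ContDiff ℝ 1 φ) (hc : HasCompactSupport φ) :
    ∫ X, u X * fderiv ℝ φ X (e i) = -∫ X, V X i * φ X := by
  have hd : Continuous fun X => fderiv ℝ φ X (e i) :=
    (hφ.continuous_fderiv one_ne_zero).clm_apply continuous_const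
  have hdc : HasCompactSupport fun X => fderiv ℝ φ X (e i) := hc.fderiv_apply ℝ (e i)
  have t1 : Tendsto (fun J => ∫ X, uJ J X * fderiv ℝ φ X (e i)) atTop
      (𝓝 (∫ X, u X * fderiv ℝ φ X (e i))) := by
    refine tendsto_int (a0 := u0) (fun J X => (dich J X).imp And.left And.left)
      (fun X => (evt X).mono fun J hJ => hJ.1) continuous_uJ differentiable_u0.continuous locInt_u
      hd hdc
  have t2 : Tendsto (fun J => ∫ X, GJ J i X ^ 5 * φ X) atTop (𝓝 (∫ X, G i X ^ 5 * φ X)) := by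
    refine tendsto_int (a := fun J X => GJ J i X ^ 5) (a0 := fun X => G0 i X ^ 5)
      (a1 := fun X => G i X ^ 5)
      (fun J X => (dich J X).imp (fun h => ?_) (fun h => ?_))
      (fun X => (evt X).mono fun J hJ => ?_) (fun J => (continuous_GJ J i).pow 5)
      ((differentiable_G0 i).continuous.pow 5) ?_
      hφ.continuous hc
    · show GJ J i X ^ 5 = _
      rw [h.2 i]
    · show GJ J i X ^ 5 = _
      rw [h.2 i]
    · rw [hJ.2 i]
    · have h := (locInt_G5 i).neg
      have e2 : (-fun X => -(G i X ^ 5)) = fun X => G i X ^ 5 := by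
        funext X
        exact neg_neg _
      rwa [e2] at h
  have h1 : ∀ J, ∫ X, uJ J X * fderiv ℝ φ X (e i) = ∫ X, GJ J i X ^ 5 * φ X :=
    fun J => weak_uJ J i hφ hc
  simp only [h1] at t1
  rw [tendsto_nhds_unique t1 t2, ← integral_neg]
  refine integral_congr_ae (Eventually.of_forall fun X => ?_)
  show _ = -(V X i * φ X)
  rw [V_apply]
  ring

theorem weak_G {φ : E → ℝ} (hφ : ContDiff ℝ 1 φ) (hc : HasCompactSupport φ)
    (h0 : ∀ X, 0 ≤ φ X) : ∑ i, ∫ X, G i X * fderiv ℝ φ X (e i) ≤ 0 := by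
  have t1 : Tendsto (fun J => ∑ i, ∫ X, GJ J i X * fderiv ℝ φ X (e i)) atTop
      (𝓝 (∑ i, ∫ X, G i X * fderiv ℝ φ X (e i))) := by
    refine tendsto_finsetSum _ fun i _ => ?_
    have hd : Continuous fun X => fderiv ℝ φ X (e i) :=
      (hφ.continuous_fderiv one_ne_zero).clm_apply continuous_const
    have hdc : HasCompactSupport fun X => fderiv ℝ φ X (e i) := hc.fderiv_apply ℝ (e i)
    exact tendsto_int (a0 := G0 i) (fun J X => (dich J X).imp (fun h => h.2 i) (fun h => h.2 i))
      (fun X => (evt X).mono fun J hJ => hJ.2 i) (fun J => continuous_GJ J i)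
      (differentiable_G0 i).continuous (locInt_G i) hd hdc
  exact le_of_tendsto' t1 fun J => weak_GJ J hφ hc h0

end Pool.Agent.R215.LP
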